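import Pool.Agent.Helper33.KV.GoalsF

namespace Pool.Agent.Helper71.KV

open Real MeasureTheory Pool.Agent.Helper41.KV Pool.Agent.Helper33.KV Set Filter Topology

theorem wt_bounds {K ρ : ℝ} (hK : 64 ≤ K) (hρ : 0 < ρ) (hρ1 : ρ ≤ 1) (y : ℝ) :
    Real.exp (-|y| / 64) / 2 ≤ wt K ρ y ∧ wt K ρ y ≤ 1 := by
  unfold wt
  have h0 : 0 < ρ * Real.exp (-(y / K)) := by positivity
  have hKpos : 0 < K := by linarith
  constructor
  · have h1 : Real.exp (-(y / K)) ≤ Real.exp (|y| / 64) := by
      apply Real.exp_le_exp.2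
      have h2 : -(y / K) ≤ |y| / K := by
        rw [← neg_div]
        exact div_le_div_of_nonneg_right (neg_le_abs y) hKpos.le
      exact h2.trans (div_le_div_of_nonneg_left (abs_nonneg y) (by norm_num) hK)
    have h3 : (1 : ℝ) ≤ Real.exp (|y| / 64) := Real.one_le_exp (by positivity)
    rw [le_div_iff₀ (by linarith)]
    have h4 : Real.exp (-|y| / 64) * Real.exp (|y| / 64) = 1 := by
      rw [← Real.exp_add]
      have : -|y| / 64 + |y| / 64 = 0 := by ring
      rw [this, Real.exp_zero]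
    have h5 : ρ * Real.exp (-(y / K)) ≤ Real.exp (|y| / 64) := by
      calc ρ * Real.exp (-(y / K)) ≤ 1 * Real.exp (-(y / K)) :=
            mul_le_mul_of_nonneg_right hρ1 (Real.exp_pos _).le
        _ ≤ _ := by rw [one_mul]; exact h1
    have h6 : 0 < Real.exp (-|y| / 64) := Real.exp_pos _
    nlinarith
  · rw [div_le_one (by linarith)]
    linarith

theorem wt_pos (K : ℝ) {ρ : ℝ} (hρ : 0 < ρ) (y : ℝ) : 0 < wt K ρ y := by
  unfold wt
  positivity

theorem wt_cont (K : ℝ) {ρ : ℝ} (hρ : 0 < ρ) : Continuous (wt K ρ) := by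
  unfold wt
  refine continuous_const.div (by fun_prop) fun y => ?_
  positivity

theorem integral_exp_abs (c : ℝ) (hc : 0 < c) : ∫ y : ℝ, Real.exp (-(c * |y|)) = 2 / c := by
  rw [integral_comp_abs (f := fun x => Real.exp (-(c * x)))]
  simp_rw [← neg_mul]
  rw [integral_exp_mul_Ioi (by linarith) 0, mul_zero, Real.exp_zero]
  field_simp

theorem integrable_exp_abs (c : ℝ) (hc : 0 < c) : Integrable (fun y : ℝ => Real.exp (-(c * |y|))) := by
  by_contra h
  have h1 := integral_undef h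
  rw [integral_exp_abs c hc] at h1
  have : 0 < 2 / c := by positivity
  linarith

theorem exp_le_wt {K ρ : ℝ} (hK : 64 ≤ K) (hρ : 0 < ρ) (hρ1 : ρ ≤ 1) {c : ℝ} (hc : 1 / 64 ≤ c)
    (y : ℝ) : Real.exp (-(c * |y|)) ≤ 2 * wt K ρ y := by
  have h1 := (wt_bounds hK hρ hρ1 y).1
  have h2 : Real.exp (-(c * |y|)) ≤ Real.exp (-|y| / 64) := by
    apply Real.exp_le_exp.2
    have := mul_le_mul_of_nonneg_right hc (abs_nonneg y)
    linarith
  linarith

theorem int_wt {K ρ : ℝ} (hK : 64 ≤ K) (hρ : 0 < ρ) (hρ1 : ρ ≤ 1) {f : ℝ → ℝ}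
    (hf : ContDiff ℝ 1 f) (h0 : MemLp f 2) (h1 : MemLp (deriv f) 2) :
    Integrable (fun y => wt K ρ y * (deriv f y ^ 2 + f y ^ 2)) := by
  have hs : Integrable (fun y => deriv f y ^ 2 + f y ^ 2) := h1.integrable_sq.add h0.integrable_sq
  have hd : Continuous (deriv f) := hf.continuous_deriv le_rfl
  refine hs.mono' ?_ (Eventually.of_forall fun y => ?_)
  · exact ((wt_cont K hρ).mul ((hd.pow 2).add (hf.continuous.pow 2))).aestronglyMeasurable
  · have hw := (wt_bounds hK hρ hρ1 y).2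
    have hw0 := (wt_pos K hρ y).le
    have hp : 0 ≤ deriv f y ^ 2 + f y ^ 2 := by positivity
    rw [Real.norm_of_nonneg (mul_nonneg hw0 hp)]
    exact mul_le_of_le_one_left hp hw

/-- pointwise bound on the left half line -/
theorem left_bd {K ρ : ℝ} (hK : 64 ≤ K) (hρ : 0 < ρ) (hρ1 : ρ ≤ 1) {f : ℝ → ℝ}
    (hf : ContDiff ℝ 1 f) (h0 : MemLp f 2) (h1 : MemLp (deriv f) 2) (y0 : ℝ) (hy0 : y0 ≤ 0) :
    Real.exp (-|y0| / 4) * f y0 ^ 2 ≤ 4 * ∫ x, wt K ρ x * (deriv f x ^ 2 + f x ^ 2) := by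
  have hI := int_wt hK hρ hρ1 hf h0 h1
  have hs : Integrable (fun y => deriv f y ^ 2 + f y ^ 2) := h1.integrable_sq.add h0.integrable_sq
  have hd : Continuous (deriv f) := hf.continuous_deriv le_rfl
  have hdiff : Differentiable ℝ f := hf.differentiable (by norm_num)
  have hder : ∀ y ∈ Iic y0, HasDerivAt (fun y => Real.exp (y / 4) * f y ^ 2)
      (Real.exp (y / 4) * (f y ^ 2 / 4 + 2 * f y * deriv f y)) y := by
    intro y _
    have e1 : HasDerivAt (fun y : ℝ => Real.exp (y / 4)) (Real.exp (y / 4) * (1 / 4)) y :=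
      ((hasDerivAt_id y).div_const 4).exp
    have e2 := (hdiff y).hasDerivAt.pow 2
    refine (e1.mul e2).congr_deriv ?_
    push_cast
    simp only [Pi.pow_apply]
    ring
  have hbd : ∀ y ∈ Iic y0, |Real.exp (y / 4) * (f y ^ 2 / 4 + 2 * f y * deriv f y)| ≤
      2 * Real.exp (y / 4) * (deriv f y ^ 2 + f y ^ 2) := by
    intro y _
    rw [abs_mul, abs_of_pos (Real.exp_pos _)]
    have e1 : |f y ^ 2 / 4 + 2 * f y * deriv f y| ≤ 2 * (deriv f y ^ 2 + f y ^ 2) := by
      rw [abs_le]
      constructor <;> nlinarith [sq_nonneg (f y + deriv f y), sq_nonneg (f y - deriv f y),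
        sq_nonneg (f y), sq_nonneg (deriv f y)]
    have := mul_le_mul_of_nonneg_left e1 (Real.exp_pos (y / 4)).le
    linarith
  have hexp1 : ∀ y ∈ Iic y0, Real.exp (y / 4) ≤ 1 := by
    intro y hy
    have hy' : y ≤ y0 := hy
    exact Real.exp_le_one_iff.2 (by linarith)
  have hi1 : IntegrableOn (fun y => Real.exp (y / 4) * (f y ^ 2 / 4 + 2 * f y * deriv f y))
      (Iic y0) := by
    have hm : Integrable (fun y => 2 * (deriv f y ^ 2 + f y ^ 2)) (volume.restrict (Iic y0)) :=
      (hs.const_mul 2).integrableOn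
    refine hm.mono' (Continuous.aestronglyMeasurable (by fun_prop)) ?_
    refine (ae_restrict_iff' measurableSet_Iic).2 (Eventually.of_forall fun y hy => ?_)
    rw [Real.norm_eq_abs]
    refine (hbd y hy).trans ?_
    have hp : 0 ≤ deriv f y ^ 2 + f y ^ 2 := by positivity
    have := mul_le_mul_of_nonneg_right (hexp1 y hy) hp
    linarith
  have hi2 : IntegrableOn (fun y => Real.exp (y / 4) * f y ^ 2) (Iic y0) := by
    have hm : Integrable (fun y => f y ^ 2) (volume.restrict (Iic y0)) :=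
      h0.integrable_sq.integrableOn
    refine hm.mono' (Continuous.aestronglyMeasurable (by
      have := hf.continuous
      fun_prop)) ?_
    refine (ae_restrict_iff' measurableSet_Iic).2 (Eventually.of_forall fun y hy => ?_)
    have hp : 0 ≤ f y ^ 2 := by positivity
    rw [Real.norm_of_nonneg (mul_nonneg (Real.exp_pos _).le hp)]
    exact mul_le_of_le_one_left hp (hexp1 y hy)
  have ht := tendsto_zero_of_hasDerivAt_of_integrableOn_Iic hder hi1 hi2
  have hF := integral_Iic_of_hasDerivAt_of_tendsto' hder hi1 ht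
  rw [sub_zero] at hF
  have habs : -|y0| / 4 = y0 / 4 := by rw [abs_of_nonpos hy0]; ring
  rw [habs, ← hF, ← integral_const_mul]
  refine (setIntegral_mono_on hi1 (hI.const_mul 4).integrableOn measurableSet_Iic
    fun y hy => ?_).trans (setIntegral_le_integral (hI.const_mul 4) (Eventually.of_forall fun y => ?_))
  · have hy' : y ≤ 0 := (show y ≤ y0 from hy).trans hy0
    have e0 : Real.exp (y / 4) ≤ 2 * wt K ρ y := by
      have := exp_le_wt hK hρ hρ1 (c := 1 / 4) (by norm_num) y
      rwa [abs_of_nonpos hy', show -(1 / 4 * -y) = y / 4 by ring] at this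
    have e1 := (le_abs_self _).trans (hbd y hy)
    have hp : 0 ≤ deriv f y ^ 2 + f y ^ 2 := by positivity
    have e2 := mul_le_mul_of_nonneg_right e0 hp
    linarith
  · have hp : 0 ≤ deriv f y ^ 2 + f y ^ 2 := by positivity
    have := mul_nonneg (wt_pos K hρ y).le hp
    show (0 : ℝ) ≤ _
    linarith

/-- pointwise bound on the right half line -/
theorem right_bd {K ρ : ℝ} (hK : 64 ≤ K) (hρ : 0 < ρ) (hρ1 : ρ ≤ 1) {f : ℝ → ℝ}
    (hf : ContDiff ℝ 1 f) (h0 : MemLp f 2) (h1 : MemLp (deriv f) 2) (y0 : ℝ) (hy0 : 0 ≤ y0) :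
    Real.exp (-|y0| / 4) * f y0 ^ 2 ≤ 4 * ∫ x, wt K ρ x * (deriv f x ^ 2 + f x ^ 2) := by
  have hI := int_wt hK hρ hρ1 hf h0 h1
  have hs : Integrable (fun y => deriv f y ^ 2 + f y ^ 2) := h1.integrable_sq.add h0.integrable_sq
  have hd : Continuous (deriv f) := hf.continuous_deriv le_rfl
  have hdiff : Differentiable ℝ f := hf.differentiable (by norm_num)
  have hder : ∀ y ∈ Ici y0, HasDerivAt (fun y => Real.exp (-y / 4) * f y ^ 2)
      (Real.exp (-y / 4) * (-(f y ^ 2 / 4) + 2 * f y * deriv f y)) y := by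
    intro y _
    have e1 : HasDerivAt (fun y : ℝ => Real.exp (-y / 4)) (Real.exp (-y / 4) * (-1 / 4)) y :=
      ((hasDerivAt_id y).neg.div_const 4).exp
    have e2 := (hdiff y).hasDerivAt.pow 2
    refine (e1.mul e2).congr_deriv ?_
    push_cast
    simp only [Pi.pow_apply]
    ring
  have hbd : ∀ y ∈ Ioi y0, |Real.exp (-y / 4) * (-(f y ^ 2 / 4) + 2 * f y * deriv f y)| ≤
      2 * Real.exp (-y / 4) * (deriv f y ^ 2 + f y ^ 2) := by
    intro y _
    rw [abs_mul, abs_of_pos (Real.exp_pos _)]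
    have e1 : |-(f y ^ 2 / 4) + 2 * f y * deriv f y| ≤ 2 * (deriv f y ^ 2 + f y ^ 2) := by
      rw [abs_le]
      constructor <;> nlinarith [sq_nonneg (f y + deriv f y), sq_nonneg (f y - deriv f y),
        sq_nonneg (f y), sq_nonneg (deriv f y)]
    have := mul_le_mul_of_nonneg_left e1 (Real.exp_pos (-y / 4)).le
    linarith
  have hexp1 : ∀ y ∈ Ioi y0, Real.exp (-y / 4) ≤ 1 := by
    intro y hy
    have hy' : y0 < y := hy
    exact Real.exp_le_one_iff.2 (by linarith)
  have hi1 : IntegrableOn (fun y => Real.exp (-y / 4) * (-(f y ^ 2 / 4) + 2 * f y * deriv f y))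
      (Ioi y0) := by
    have hm : Integrable (fun y => 2 * (deriv f y ^ 2 + f y ^ 2)) (volume.restrict (Ioi y0)) :=
      (hs.const_mul 2).integrableOn
    refine hm.mono' (Continuous.aestronglyMeasurable (by fun_prop)) ?_
    refine (ae_restrict_iff' measurableSet_Ioi).2 (Eventually.of_forall fun y hy => ?_)
    rw [Real.norm_eq_abs]
    refine (hbd y hy).trans ?_
    have hp : 0 ≤ deriv f y ^ 2 + f y ^ 2 := by positivity
    have := mul_le_mul_of_nonneg_right (hexp1 y hy) hp
    linarith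
  have hi2 : IntegrableOn (fun y => Real.exp (-y / 4) * f y ^ 2) (Ioi y0) := by
    have hm : Integrable (fun y => f y ^ 2) (volume.restrict (Ioi y0)) :=
      h0.integrable_sq.integrableOn
    refine hm.mono' (Continuous.aestronglyMeasurable (by
      have := hf.continuous
      fun_prop)) ?_
    refine (ae_restrict_iff' measurableSet_Ioi).2 (Eventually.of_forall fun y hy => ?_)
    have hp : 0 ≤ f y ^ 2 := by positivity
    rw [Real.norm_of_nonneg (mul_nonneg (Real.exp_pos _).le hp)]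
    exact mul_le_of_le_one_left hp (hexp1 y hy)
  have ht := tendsto_zero_of_hasDerivAt_of_integrableOn_Ioi
    (fun x hx => hder x (Ioi_subset_Ici_self hx)) hi1 hi2
  have hF := integral_Ioi_of_hasDerivAt_of_tendsto' hder hi1 ht
  have habs : -|y0| / 4 = -y0 / 4 := by rw [abs_of_nonneg hy0]
  have hF' : Real.exp (-y0 / 4) * f y0 ^ 2 =
      ∫ y in Ioi y0, -(Real.exp (-y / 4) * (-(f y ^ 2 / 4) + 2 * f y * deriv f y)) := by
    rw [integral_neg, hF]
    ring
  rw [habs, hF', ← integral_const_mul]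
  refine (setIntegral_mono_on hi1.neg (hI.const_mul 4).integrableOn measurableSet_Ioi
    fun y hy => ?_).trans (setIntegral_le_integral (hI.const_mul 4) (Eventually.of_forall fun y => ?_))
  · have hy' : 0 ≤ y := hy0.trans (le_of_lt (show y0 < y from hy))
    have e0 : Real.exp (-y / 4) ≤ 2 * wt K ρ y := by
      have := exp_le_wt hK hρ hρ1 (c := 1 / 4) (by norm_num) y
      rwa [abs_of_nonneg hy', show -(1 / 4 * y) = -y / 4 by ring] at this
    have e1 := (neg_le_abs _).trans (hbd y hy)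
    have hp : 0 ≤ deriv f y ^ 2 + f y ^ 2 := by positivity
    have e2 := mul_le_mul_of_nonneg_right e0 hp
    show -(Real.exp (-y / 4) * (-(f y ^ 2 / 4) + 2 * f y * deriv f y)) ≤ _
    linarith
  · have hp : 0 ≤ deriv f y ^ 2 + f y ^ 2 := by positivity
    have := mul_nonneg (wt_pos K hρ y).le hp
    show (0 : ℝ) ≤ _
    linarith

theorem thm_WTL : S_WTL := by
  intro K ρ hK hρ hρ1 f hf h0 h1
  have hI := int_wt hK hρ hρ1 hf h0 h1
  set H : ℝ := ∫ x, wt K ρ x * (deriv f x ^ 2 + f x ^ 2) with hH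
  have hH0 : 0 ≤ H := integral_nonneg fun y =>
    mul_nonneg (wt_pos K hρ y).le (by positivity)
  have h3 : ∀ y, Real.exp (-|y| / 4) * f y ^ 2 ≤ 4 * H := by
    intro y
    rcases le_total y 0 with hy | hy
    · exact left_bd hK hρ hρ1 hf h0 h1 y hy
    · exact right_bd hK hρ hρ1 hf h0 h1 y hy
  -- bound of an integrand by the weight
  have hwf : ∀ (c : ℝ), 1 / 64 ≤ c → ∀ y, f y ^ 2 * Real.exp (-(c * |y|)) ≤
      2 * (wt K ρ y * (deriv f y ^ 2 + f y ^ 2)) := by
    intro c hc y
    have e1 := exp_le_wt hK hρ hρ1 hc y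
    have e2 := mul_le_mul_of_nonneg_left e1 (sq_nonneg (f y))
    have e3 := mul_nonneg (wt_pos K hρ y).le (sq_nonneg (deriv f y))
    nlinarith
  refine ⟨wt_bounds hK hρ hρ1, ?_, h3, ?_, ?_⟩
  · -- Cauchy-Schwarz by the inequality of means
    set J : ℝ := ∫ y, |f y| * Real.exp (-|y| / 2) with hJ
    have hJ0 : 0 ≤ J := integral_nonneg fun y => by positivity
    have key : ∀ s : ℝ, 0 < s → J ≤ s * H + 2 / s := by
      intro s hs
      have hB := integrable_exp_abs (63 / 64) (by norm_num)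
      have hsum : ∫ y, (s * (wt K ρ y * (deriv f y ^ 2 + f y ^ 2)) +
          1 / (2 * s) * Real.exp (-(63 / 64 * |y|))) = s * H + 1 / (2 * s) * (2 / (63 / 64)) := by
        rw [integral_add (hI.const_mul s) (hB.const_mul _), integral_const_mul, integral_const_mul,
          integral_exp_abs _ (by norm_num)]
      have h5 : J ≤ ∫ y, (s * (wt K ρ y * (deriv f y ^ 2 + f y ^ 2)) +
          1 / (2 * s) * Real.exp (-(63 / 64 * |y|))) := by
        refine integral_mono_of_nonneg (Eventually.of_forall fun y => by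
          show (0 : ℝ) ≤ |f y| * Real.exp (-|y| / 2)
          positivity)
          ((hI.const_mul s).add (hB.const_mul _)) (Eventually.of_forall fun y => ?_)
        show |f y| * Real.exp (-|y| / 2) ≤ s * (wt K ρ y * (deriv f y ^ 2 + f y ^ 2)) +
          1 / (2 * s) * Real.exp (-(63 / 64 * |y|))
        set A := |f y| * Real.exp (-(1 / 128 * |y|)) with hA
        set B := Real.exp (-(63 / 128 * |y|)) with hB'
        have eA : A ^ 2 = f y ^ 2 * Real.exp (-(1 / 64 * |y|)) := by
          rw [hA, mul_pow, sq_abs, sq (Real.exp _), ← Real.exp_add]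
          congr 2; ring
        have eB : B ^ 2 = Real.exp (-(63 / 64 * |y|)) := by
          rw [hB', sq, ← Real.exp_add]
          congr 1; ring
        have eAB : |f y| * Real.exp (-|y| / 2) = A * B := by
          rw [hA, hB', mul_assoc, ← Real.exp_add]
          congr 2; ring
        have hA2 : A ^ 2 ≤ 2 * (wt K ρ y * (deriv f y ^ 2 + f y ^ 2)) := by
          rw [eA]; exact hwf _ le_rfl y
        rw [eAB, ← eB]
        have e6 : A * B ≤ s * A ^ 2 / 2 + 1 / (2 * s) * B ^ 2 := by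
          have : 0 ≤ (s * A - B) ^ 2 / (2 * s) := by positivity
          have e7 : (s * A - B) ^ 2 / (2 * s) = s * A ^ 2 / 2 + 1 / (2 * s) * B ^ 2 - A * B := by
            field_simp
            ring
          linarith
        have e8 := mul_le_mul_of_nonneg_left hA2 hs.le
        linarith
      have h6 : 1 / (2 * s) * (2 / (63 / 64)) ≤ 2 / s := by
        rw [show 1 / (2 * s) * (2 / (63 / 64 : ℝ)) = (64 / 63) / s by field_simp]
        exact div_le_div_of_nonneg_right (by norm_num) hs.le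
      linarith
    rcases eq_or_lt_of_le hH0 with h | h
    · rw [← h, Real.sqrt_zero, mul_zero]
      by_contra hcon
      push Not at hcon
      have h7 := key (4 / J) (by positivity)
      rw [← h, mul_zero, zero_add] at h7
      have : 2 / (4 / J) = J / 2 := by field_simp; norm_num
      linarith
    · have hs := Real.sqrt_pos.2 h
      have h7 := key (1 / Real.sqrt H) (by positivity)
      have e1 : 1 / Real.sqrt H * H = Real.sqrt H := by
        rw [one_div, inv_mul_eq_div, Real.div_sqrt]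
      have e2 : 2 / (1 / Real.sqrt H) = 2 * Real.sqrt H := by field_simp
      rw [e1, e2] at h7
      linarith
  · rw [hH, ← integral_const_mul]
    refine integral_mono_of_nonneg (Eventually.of_forall fun y => by
      show (0 : ℝ) ≤ f y ^ 2 * Real.exp (-|y| / 2)
      positivity) (hI.const_mul 2) (Eventually.of_forall fun y => ?_)
    have := hwf (1 / 2) (by norm_num) y
    rwa [show -(1 / 2 * |y|) = -|y| / 2 by ring] at this
  · have hs0 := Real.sqrt_nonneg H
    have hss : Real.sqrt H ^ 2 = H := Real.sq_sqrt hH0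
    have hpow : H ^ ((5 : ℝ) / 2) = H * Real.sqrt H ^ 3 := by
      rw [Real.sqrt_eq_rpow, ← Real.rpow_natCast, ← Real.rpow_mul hH0,
        show (5 : ℝ) / 2 = 1 + 1 / 2 * ((3 : ℕ) : ℝ) by norm_num,
        Real.rpow_add_of_nonneg hH0 (by norm_num) (by norm_num), Real.rpow_one]
    have hroot : ∀ y, |f y| * Real.exp (-(1 / 8 * |y|)) ≤ 2 * Real.sqrt H := by
      intro y
      have e1 : (|f y| * Real.exp (-(1 / 8 * |y|))) ^ 2 ≤ (2 * Real.sqrt H) ^ 2 := by
        rw [mul_pow, mul_pow, sq_abs, hss, sq (Real.exp _), ← Real.exp_add]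
        have := h3 y
        rw [show -(1 / 8 * |y|) + -(1 / 8 * |y|) = -|y| / 4 by ring]
        linarith
      exact (le_abs_self _).trans (abs_le_of_sq_le_sq e1 (by positivity))
    have hgoal : (16 : ℝ) * H ^ ((5 : ℝ) / 2) =
        ∫ y, 16 * Real.sqrt H ^ 3 * (wt K ρ y * (deriv f y ^ 2 + f y ^ 2)) := by
      rw [integral_const_mul, ← hH, hpow]
      ring
    rw [hgoal]
    refine integral_mono_of_nonneg (Eventually.of_forall fun y => by
      show (0 : ℝ) ≤ |f y| ^ 5 * Real.exp (-(3 / 4) * |y|)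
      positivity) (hI.const_mul _) (Eventually.of_forall fun y => ?_)
    show |f y| ^ 5 * Real.exp (-(3 / 4) * |y|) ≤ _
    have e1 : |f y| ^ 5 * Real.exp (-(3 / 4) * |y|) =
        (|f y| * Real.exp (-(1 / 8 * |y|))) ^ 3 * (f y ^ 2 * Real.exp (-(3 / 8 * |y|))) := by
      rw [mul_pow, ← sq_abs (f y), ← Real.exp_nat_mul]
      rw [show |f y| ^ 3 * Real.exp (((3 : ℕ) : ℝ) * -(1 / 8 * |y|)) *
        (|f y| ^ 2 * Real.exp (-(3 / 8 * |y|))) = |f y| ^ 5 *
        (Real.exp (((3 : ℕ) : ℝ) * -(1 / 8 * |y|)) * Real.exp (-(3 / 8 * |y|))) by ring,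
        ← Real.exp_add]
      congr 2
      push_cast
      ring
    rw [e1]
    have e2 : (|f y| * Real.exp (-(1 / 8 * |y|))) ^ 3 ≤ (2 * Real.sqrt H) ^ 3 :=
      pow_le_pow_left₀ (by positivity) (hroot y) 3
    have e3 := hwf (3 / 8) (by norm_num) y
    have e4 : 0 ≤ f y ^ 2 * Real.exp (-(3 / 8 * |y|)) := by positivity
    calc (|f y| * Real.exp (-(1 / 8 * |y|))) ^ 3 * (f y ^ 2 * Real.exp (-(3 / 8 * |y|)))
        ≤ (2 * Real.sqrt H) ^ 3 * (2 * (wt K ρ y * (deriv f y ^ 2 + f y ^ 2))) :=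
          mul_le_mul e2 e3 e4 (by positivity)
      _ = 16 * Real.sqrt H ^ 3 * (wt K ρ y * (deriv f y ^ 2 + f y ^ 2)) := by ring

end Pool.Agent.Helper71.KV
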