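import Pool.Agent.Helper71.KV.RBD

/-!
# Project KV, packet RB
-/

namespace Pool.Agent.Helper71.KV.RB

open Real MeasureTheory Pool.Agent.Helper41.KV Pool.Agent.Helper33.KV
open Pool.Agent.Helper61.KV

lemma chO_one {x : ℝ} (h1 : -(1 / 2) ≤ x) (h2 : x ≤ 1 / 2) : chO x = 1 := by
  unfold chO
  rw [Real.smoothTransition.one_of_one_le (by linarith),
    Real.smoothTransition.one_of_one_le (by linarith), mul_one]

lemma chL_one {s : ℝ} (h : -1 ≤ s) : chL s = 1 := by
  unfold chL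
  exact Real.smoothTransition.one_of_one_le (by linarith)

lemma polyExp {f : ℝ → ℝ} (hf : IsP f) : ∃ C : ℝ, 0 ≤ C ∧ ∀ k ≤ 4, ∀ y,
    |iteratedDeriv k f y| ≤ C * Real.exp (|y| / 64) := by
  obtain ⟨n, C, hC0, hC⟩ := unifP hf 4
  obtain ⟨K, hK0, hK⟩ := poly_exp n (1 / 64) (by norm_num)
  refine ⟨C * K, mul_nonneg hC0 hK0, fun k hk y => ?_⟩
  refine (hC k hk y).trans ?_
  have := hK |y| (abs_nonneg y)
  rw [show 1 / 64 * |y| = |y| / 64 by ring] at this
  rw [mul_assoc]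
  exact mul_le_mul_of_nonneg_left this hC0

lemma dexp_num {r x y z C3 CV E K : ℝ} (hr : 0 < r) (hC30 : 0 ≤ C3) (hCV0 : 0 ≤ CV)
    (hE : 0 < E) (hrs : r < 1 / (CV + C3 + 5)) (a1 : |x| ≤ r * K * E)
    (a2 : |y| ≤ r ^ 2 * (CV * E)) (a3 : |z| ≤ r ^ 3 * ((C3 + 4) * E)) :
    |x + y + z| ≤ (1 + K) * r * E := by
  have hden : 0 < CV + C3 + 5 := by positivity
  rw [lt_div_iff₀ hden] at hrs
  have hr1 : r ≤ 1 := by nlinarith
  have a4 : r * CV + r ^ 2 * (C3 + 4) ≤ 1 := by
    have : r ^ 2 ≤ r := by nlinarith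
    nlinarith
  have t1 := abs_add_three x y z
  have hE0 : 0 < r * E := by positivity
  have a5 := mul_le_mul_of_nonneg_right a4 hE0.le
  have e5 : r ^ 2 * (CV * E) + r ^ 3 * ((C3 + 4) * E)
      = (r * CV + r ^ 2 * (C3 + 4)) * (r * E) := by ring
  have e6 : (1 + K) * r * E = r * K * E + 1 * (r * E) := by ring
  rw [e6]
  linarith

theorem thm_RB (hQ : S_QF) (hM : S_MCL1) (hP : Pool.Agent.Helper41.KV.S_PAIR) (hC : S_CURV)
    (hV : S_VREP) (hT : S_TD) (hZ : S_FZ) (hB : S_FHB) (hS : S_SMW) : S_RB := by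
  intro α ω3 e3 h3
  have hg : IsP (fun y => ω3 y + e3.eval y) := addP (TP h3) (polyP e3)
  obtain ⟨C3, hC30, hC3⟩ := polyExp hg
  refine ⟨C3 + 4, ?_⟩
  intro J n R P k0 k1 k2 k3 p c1 a0 ω2 w M hD hMz θ hθ hθ1 T0 C0 hT0 hU
  have h0 := hD.a_pos
  have h1 := hD.a_lt
  have hk1 : 0 < kOne α := kOne_pos hQ h0
  -- profiles
  set ζ : ℝ → ℝ := fun y => kOne α + wOne α R P y with hζd
  have hζ : IsP ζ := addP (constP (kOne α)) (TP (hP α R P hD.rp).1)
  have hζe : ∀ y, kap α * Zp α R P y = ζ y := by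
    intro y
    rw [kap_eq]
    unfold Zp
    rw [mul_div_cancel₀ _ hk1.ne']
  set V2 : ℝ → ℝ := V2p α c1 ω2 with hV2d
  have hV2 : IsP V2 := by
    have a1 := addP (addP (smulP (kOne α * (α - 1 / 2)) idP) (constP c1)) (tailP hD.tail2)
    exact a1
  set A : F3 := w - lif 1 (fun _ y => wOne α R P y) - lif 2 (fun _ y => ω2 y)
    - lif 3 (fun _ y => ω3 y) with hAd
  set B : F3 := Fh α k0 k1 k2 k3 n (gZero p J) - lif 1 (fun _ _ => kOne α)
    - lif 2 (fun _ y => kOne α * (α - 1/2) * y + c1) - lif 3 (fun _ y => e3.eval y) with hBd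
  have hA : A ∈ MT 4 := hD.wexp
  have hBm : B ∈ MP 4 := hD.Fexp
  set v : ℝ → ℝ → ℝ := vin α θ R P w (fZero α p J) n with hvd
  obtain ⟨Ts, hTs0, -, hv, -⟩ := hS α J n R P k0 k1 k2 k3 p c1 a0 ω2 ω3 e3 w hD θ hθ (by linarith)
  obtain ⟨TV, hTV0, hTV⟩ := hV α J n R P k0 k1 k2 k3 p c1 a0 ω2 ω3 e3 w hD θ hθ (by linarith)
  obtain ⟨CF, hCF⟩ := hB α (fZero α p J) n h0 h1 (hZ α p J h0 h1)
  obtain ⟨TG, hTG0, hTG⟩ := rho_small hC h0 h1 (ε := 1) one_pos
  set T1 : ℝ := min (min Ts TV) (min T0 TG) with hT1d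
  have hT1 : 0 < T1 := lt_min (lt_min hTs0 hTV0) (lt_min hT0 hTG0)
  have hT1s : T1 ≤ Ts := (min_le_left _ _).trans (min_le_left _ _)
  have hT1V : T1 ≤ TV := (min_le_left _ _).trans (min_le_right _ _)
  have hT10 : T1 ≤ T0 := (min_le_right _ _).trans (min_le_left _ _)
  have hT1G : T1 ≤ TG := (min_le_right _ _).trans (min_le_right _ _)
  have hv1 : ContDiffOn ℝ (⊤ : ℕ∞) (fun q : ℝ × ℝ => v q.1 q.2) (Set.Ioo 0 T1 ×ˢ Set.univ) :=
    hv.mono (Set.prod_mono (Set.Ioo_subset_Ioo le_rfl hT1s) le_rfl)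
  have hrep : ∀ t ∈ Set.Ioo 0 T1, ∀ y, -1 ≤ rho α t ^ θ * y → rho α t * y ≤ 1 / 2 →
      v t y = Q y + rho α t * ζ y + rho α t ^ 2 * V2 y + rho α t ^ 3 * (ω3 y + e3.eval y)
        + A (rho α t) (Real.log (sig α t)) y + B (rho α t) (Real.log (sig α t)) y := by
    intro t ht y hy1 hy2
    obtain ⟨s1, s2, s3, -⟩ := hTV t ht.1 (ht.2.le.trans hT1V)
    obtain ⟨g1, -⟩ := hTG t ht.1 (ht.2.le.trans hT1G)
    obtain ⟨hs, hl, hr, hls, -⟩ := (hC α h0 h1).1 t ht.1
    have hp : 0 < rho α t ^ θ := Real.rpow_pos_of_pos hr _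
    rw [hvd, s3 y hy2]
    -- lower bound of `ρ y`
    have hlow : -(1 / 4) ≤ rho α t * y := by
      rcases le_total 0 y with h | h
      · have := mul_nonneg hr.le h
        linarith
      · have e1 : rho α t * y = rho α t ^ (1 - θ) * (rho α t ^ θ * y) := by
          rw [← mul_assoc, ← Real.rpow_add hr]
          norm_num
        have hq : 0 < rho α t ^ (1 - θ) := Real.rpow_pos_of_pos hr _
        rw [e1]
        nlinarith
    have hx : sig α t + lam α t * y = sig α t * (1 + rho α t * y) := by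
      rw [hls]; ring
    have hx1 : -(1 / 2) ≤ sig α t + lam α t * y := by
      rw [hx]
      have : 0 ≤ sig α t * (1 + rho α t * y) := mul_nonneg hs.le (by linarith)
      linarith
    have hx2 : sig α t + lam α t * y ≤ 1 / 2 := by
      rw [hx]
      nlinarith
    have hL2 : chL (rho α t ^ ((1 : ℝ) / 2) * y) = 1 := by
      apply chL_one
      rcases le_total 0 y with h | h
      · have := mul_nonneg (Real.rpow_nonneg hr.le ((1 : ℝ) / 2)) h
        linarith
      · have e2 : rho α t ^ ((1 : ℝ) / 2) ≤ rho α t ^ θ :=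
          Real.rpow_le_rpow_of_exponent_ge hr g1.le (by linarith)
        have := mul_le_mul_of_nonpos_right e2 h
        linarith
    rw [chO_one hx1 hx2, hL2, chL_one hy1]
    rw [hAd, hBd, hζd, hV2d]
    unfold Gg V2p
    simp only [Pi.sub_apply, lif]
    ring
  have hk : ∀ t ∈ Set.Ioo 0 T1, ∀ k ≤ 4, ∀ y,
      |iteratedDeriv k (v t) y - iteratedDeriv k Q y| ≤ 2 * |C0| + |CF| := by
    intro t ht k hk4 y
    have htc : t ∈ Set.Ioc 0 T0 := ⟨ht.1, ht.2.le.trans hT10⟩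
    obtain ⟨g1, g2⟩ := hTG t ht.1 (ht.2.le.trans hT1G)
    obtain ⟨hs, hl, hr, hls, -⟩ := (hC α h0 h1).1 t ht.1
    rcases le_total y 0 with hy | hy
    · rcases Nat.eq_zero_or_pos k with rfl | hk0
      · rw [iteratedDeriv_zero, iteratedDeriv_zero]
        refine (hU.neg0 t htc y hy).trans ?_
        calc C0 * rho α t ≤ |C0| * 1 := by
              apply mul_le_mul (le_abs_self _) g1.le hr.le (abs_nonneg _)
          _ ≤ 2 * |C0| + |CF| := by linarith [abs_nonneg C0, abs_nonneg CF]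
      · refine (hU.negk t htc y hy k hk0 (by omega)).trans ?_
        have e1 : Real.exp (-|y| / 2) ≤ 1 := Real.exp_le_one_iff.mpr (by linarith [abs_nonneg y])
        have e2 : rho α t ^ ((3 : ℝ) / 2) ≤ 1 := Real.rpow_le_one hr.le g1.le (by norm_num)
        have e3 : 0 ≤ rho α t ^ ((3 : ℝ) / 2) := Real.rpow_nonneg hr.le _
        have e4 : rho α t * Real.exp (-|y| / 2) ≤ 1 * 1 :=
          mul_le_mul g1.le e1 (Real.exp_pos _).le zero_le_one
        calc C0 * (rho α t * Real.exp (-|y| / 2) + rho α t ^ ((3 : ℝ) / 2)) ≤ |C0| * 2 := by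
              apply mul_le_mul (le_abs_self _) (by linarith) (by positivity) (abs_nonneg _)
          _ ≤ 2 * |C0| + |CF| := by linarith [abs_nonneg C0, abs_nonneg CF]
    · have b1 := hU.posk t htc y hy k (by omega)
      have b2 := (hCF t y ht.1 g2.le (by
        have := mul_nonneg hl.le hy
        linarith)).1 k (by omega)
      have b2' : |iteratedDeriv k (Fhat α (fZero α p J) n t) y| ≤ CF * rho α t ^ ((k : ℝ) + 3/4) :=
        b2
      have e1 : Real.exp (-y / 2) ≤ 1 := Real.exp_le_one_iff.mpr (by linarith)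
      have e2 : rho α t ^ ((7 : ℝ) / 8) ≤ 1 := Real.rpow_le_one hr.le g1.le (by norm_num)
      have e3 : 0 ≤ rho α t ^ ((7 : ℝ) / 8) := Real.rpow_nonneg hr.le _
      have e4 : rho α t ^ ((k : ℝ) + 3/4) ≤ 1 := Real.rpow_le_one hr.le g1.le (by positivity)
      have e5 : 0 ≤ rho α t ^ ((k : ℝ) + 3/4) := Real.rpow_nonneg hr.le _
      have c1' : C0 * rho α t ^ ((7 : ℝ) / 8) * Real.exp (-y / 2) ≤ |C0| := by
        rw [mul_assoc]
        calc C0 * (rho α t ^ ((7 : ℝ) / 8) * Real.exp (-y / 2)) ≤ |C0| * 1 := by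
              apply mul_le_mul (le_abs_self _) _ (by positivity) (abs_nonneg _)
              calc rho α t ^ ((7 : ℝ) / 8) * Real.exp (-y / 2) ≤ 1 * 1 :=
                    mul_le_mul e2 e1 (Real.exp_pos _).le zero_le_one
                _ = 1 := one_mul 1
          _ = |C0| := mul_one _
      have c2' : CF * rho α t ^ ((k : ℝ) + 3/4) ≤ |CF| := by
        calc CF * rho α t ^ ((k : ℝ) + 3/4) ≤ |CF| * 1 :=
              mul_le_mul (le_abs_self _) e4 e5 (abs_nonneg _)
          _ = |CF| := mul_one _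
      have t1 := abs_add_le (iteratedDeriv k (v t) y - iteratedDeriv k Q y
        - iteratedDeriv k (Fhat α (fZero α p J) n t) y) (iteratedDeriv k (Fhat α (fZero α p J) n t) y)
      rw [sub_add_cancel] at t1
      have := abs_nonneg C0
      linarith
  have htd : ∀ t ∈ Set.Ioo 0 T1, ∀ y,
      lam α t ^ 3 * |deriv (fun τ => v τ y) t| ≤ 2 * |C0| + |CF| := by
    intro t ht y
    have htc : t ∈ Set.Ioc 0 T0 := ⟨ht.1, ht.2.le.trans hT10⟩
    obtain ⟨g1, g2⟩ := hTG t ht.1 (ht.2.le.trans hT1G)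
    obtain ⟨hs, hl, hr, hls, -⟩ := (hC α h0 h1).1 t ht.1
    have e2 : rho α t ^ ((7 : ℝ) / 4) ≤ 1 := Real.rpow_le_one hr.le g1.le (by norm_num)
    have e3 : 0 ≤ rho α t ^ ((7 : ℝ) / 4) := Real.rpow_nonneg hr.le _
    rcases le_total y 0 with hy | hy
    · refine (hU.negt t htc y hy).1.trans ?_
      calc C0 * rho α t ^ ((7 : ℝ) / 4) ≤ |C0| * 1 :=
            mul_le_mul (le_abs_self _) e2 e3 (abs_nonneg _)
        _ ≤ 2 * |C0| + |CF| := by linarith [abs_nonneg C0, abs_nonneg CF]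
    · have b1 := (hU.post t htc y hy).1
      have b2 := (hCF t y ht.1 g2.le (by
        have := mul_nonneg hl.le hy
        linarith)).2.2.1
      have b2' : lam α t ^ 3 * |deriv (fun τ => Fhat α (fZero α p J) n τ y) t|
          ≤ CF * rho α t ^ ((7 : ℝ) / 4) := b2
      have e1 : Real.exp (-y / 2) ≤ 1 := Real.exp_le_one_iff.mpr (by linarith)
      have c1' : C0 * rho α t ^ ((7 : ℝ) / 4) * Real.exp (-y / 2) ≤ |C0| := by
        rw [mul_assoc]
        calc C0 * (rho α t ^ ((7 : ℝ) / 4) * Real.exp (-y / 2)) ≤ |C0| * 1 := by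
              apply mul_le_mul (le_abs_self _) _ (by positivity) (abs_nonneg _)
              calc rho α t ^ ((7 : ℝ) / 4) * Real.exp (-y / 2) ≤ 1 * 1 :=
                    mul_le_mul e2 e1 (Real.exp_pos _).le zero_le_one
                _ = 1 := one_mul 1
          _ = |C0| := mul_one _
      have c2' : CF * rho α t ^ ((7 : ℝ) / 4) ≤ |CF| := by
        calc CF * rho α t ^ ((7 : ℝ) / 4) ≤ |CF| * 1 :=
              mul_le_mul (le_abs_self _) e2 e3 (abs_nonneg _)
          _ = |CF| := mul_one _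
      have t1 := abs_add_le (deriv (fun τ => v τ y) t
        - deriv (fun τ => Fhat α (fZero α p J) n τ y) t)
        (deriv (fun τ => Fhat α (fZero α p J) n τ y) t)
      rw [sub_add_cancel] at t1
      have hl3 : 0 < lam α t ^ 3 := by positivity
      have t2 := mul_le_mul_of_nonneg_left t1 hl3.le
      rw [mul_add] at t2
      have := abs_nonneg C0
      linarith
  obtain ⟨T, hTp, hTlt, hcore⟩ := core hC hQ hM hT h0 h1 hζ hV2 hg hC30 hC3 hA hBm hθ hθ1 hT1
    (by positivity : 0 ≤ 2 * |C0| + |CF|) hv1 hrep hk htd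
  obtain ⟨CV, hCV0, hCV⟩ := polyExp hV2
  obtain ⟨T2, hT20, hT2⟩ := rho_small hC h0 h1 (ε := 1 / (CV + C3 + 5)) (by positivity)
  refine ⟨min T T2, lt_min hTp hT20, (min_le_left _ _).trans (hTlt.le.trans hT10), ?_⟩
  rintro t ⟨ht0, htT⟩
  have htT1 : t ≤ T := htT.trans (min_le_left _ _)
  have htT2 : t ≤ T2 := htT.trans (min_le_right _ _)
  obtain ⟨r1, r2, r3⟩ := hcore t ⟨ht0, htT1⟩
  have hre : ∀ τ y, rr α v ζ V2 τ y = (v τ y - Q y - rho α τ * kap α * Zp α R P y
      - rho α τ ^ 2 * V2 y) / rho α τ ^ 3 := by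
    intro τ y
    unfold rr
    rw [← hζe y, mul_assoc]
  have hre1 : (fun y => (v t y - Q y - rho α t * kap α * Zp α R P y
      - rho α t ^ 2 * V2 y) / rho α t ^ 3) = rr α v ζ V2 t := by
    funext y; exact (hre t y).symm
  have hre2 : ∀ y, (fun τ => (v τ y - Q y - rho α τ * kap α * Zp α R P y
      - rho α τ ^ 2 * V2 y) / rho α τ ^ 3) = fun τ => rr α v ζ V2 τ y := by
    intro y; funext τ; exact (hre τ y).symm
  refine ⟨?_, ?_, ?_, ?_⟩
  · rw [hre1]; exact r1
  · intro k hk4 y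
    rw [hre1]; exact r2 k hk4 y
  · intro y
    rw [hre2 y]; exact r3 y
  · intro y
    have hr := rho_pos' (t := t) h0 ht0
    have hrs := (hT2 t ht0 htT2).1
    have b0 := r2 0 (by norm_num) y
    rw [iteratedDeriv_zero] at b0
    have b1 := hCV 0 (by norm_num) y
    rw [iteratedDeriv_zero] at b1
    have hM0 : 0 ≤ M := (abs_nonneg _).trans (hMz 0)
    have hE : Real.exp (|y| / 64) ≤ Real.exp (|y| / 8) := by
      apply Real.exp_le_exp.mpr
      have := abs_nonneg y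
      linarith
    have hE1 : 1 ≤ Real.exp (|y| / 8) := Real.one_le_exp (by positivity)
    have e0 : v t y - Q y = rho α t * (kap α * Zp α R P y) + rho α t ^ 2 * V2 y
        + rho α t ^ 3 * rr α v ζ V2 t y := by
      unfold rr
      rw [hζe y]
      have := hr.ne'
      field_simp
      ring
    set E := Real.exp (|y| / 8) with hEd
    have hkap : 0 < kap α := by rw [kap_eq]; exact hk1
    have a1 : |rho α t * (kap α * Zp α R P y)| ≤ rho α t * (kap α * M) * E := by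
      rw [abs_mul, abs_mul, abs_of_pos hr, abs_of_pos hkap]
      calc rho α t * (kap α * |Zp α R P y|) ≤ rho α t * (kap α * M) := by
            have := hMz y
            gcongr
        _ ≤ rho α t * (kap α * M) * E := le_mul_of_one_le_right (by positivity) hE1
    have a2 : |rho α t ^ 2 * V2 y| ≤ rho α t ^ 2 * (CV * E) := by
      rw [abs_mul, abs_of_pos (pow_pos hr 2)]
      apply mul_le_mul_of_nonneg_left _ (pow_pos hr 2).le
      exact b1.trans (mul_le_mul_of_nonneg_left hE hCV0)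
    have a3 : |rho α t ^ 3 * rr α v ζ V2 t y| ≤ rho α t ^ 3 * ((C3 + 4) * E) := by
      rw [abs_mul, abs_of_pos (pow_pos hr 3)]
      apply mul_le_mul_of_nonneg_left _ (pow_pos hr 3).le
      exact b0.trans (mul_le_mul_of_nonneg_left hE (by linarith))
    rw [e0]
    exact dexp_num hr hC30 hCV0 (Real.exp_pos _) hrs a1 a2 a3

end Pool.Agent.Helper71.KV.RB
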