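import Pool.Agent.Helper41.KV.GoalsD
import Pool.Agent.Helper61.KV.ECL1
import Pool.Agent.Helper71.KV.F_WTL

/-!
# Project KV, packet RB: preliminaries
-/

namespace Pool.Agent.Helper71.KV.RB

open Real MeasureTheory Pool.Agent.Helper41.KV Pool.Agent.Helper33.KV
open Pool.Agent.Helper61.KV

lemma constP (c : ℝ) : IsP (fun _ => c) := by
  have h := polyP (Polynomial.C c)
  simpa using h

lemma smulP {f : ℝ → ℝ} (c : ℝ) (hf : IsP f) : IsP (fun y => c * f y) :=
  mulPP (constP c) hf

lemma idP : IsP (fun y => y) := by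
  have h := polyP Polynomial.X
  simpa using h

lemma chiP : IsP chiM := by
  have h := addP (constP (1 / 2)) (smulP (-(1 / 2)) thP)
  have e : (fun y : ℝ => (1 / 2 : ℝ) + -(1 / 2) * Real.tanh (2 * y)) = chiM := by
    funext y; unfold chiM; ring
  rw [e] at h
  exact h

lemma tailP {q : Polynomial ℝ} {a : ℝ → ℝ} (h : HasTail q a) : IsP a := by
  have h1 := addP (E_P h) (mulPP (polyP q) chiP)
  have e : (fun y => (a y - q.eval y * chiM y) + q.eval y * chiM y) = a := by
    funext y; ring
  rw [e] at h1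
  exact h1

lemma TP {a : ℝ → ℝ} (h : IsT a) : IsP a := by
  obtain ⟨q, hq⟩ := h
  exact tailP hq

lemma kap_eq (α : ℝ) : kap α = kOne α := rfl

lemma intQ_pos (hQ : S_QF) : 0 < ∫ y, Q y := by
  obtain ⟨hsm, hpos, -, -, -, -, hk, -⟩ := hQ
  obtain ⟨C, hC⟩ := hk 0
  have hint : Integrable Q := by
    have h1 : Integrable (fun y : ℝ => C * Real.exp (-|y|)) := by
      refine Integrable.const_mul ?_ C
      have h2 := Pool.Agent.Helper71.KV.integrable_exp_abs 1 one_pos
      simpa using h2
    refine h1.mono' hsm.continuous.aestronglyMeasurable (Filter.Eventually.of_forall fun y => ?_)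
    simpa using hC y
  rw [integral_pos_iff_support_of_nonneg (fun y => (hpos y).le) hint]
  have : Function.support Q = Set.univ := by
    ext y; simp [(hpos y).ne']
  rw [this]
  simp

lemma kOne_pos (hQ : S_QF) {α : ℝ} (hα : 0 < α) : 0 < kOne α := by
  unfold kOne
  have := intQ_pos hQ
  positivity

end Pool.Agent.Helper71.KV.RB
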