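import Pool.Agent.Helper71.KV.RBA

/-!
# Project KV, packet RB: calculus along the curve
-/

namespace Pool.Agent.Helper71.KV.RB

open Real MeasureTheory Pool.Agent.Helper41.KV Pool.Agent.Helper33.KV
open Pool.Agent.Helper61.KV

/-- time derivative of `ρ^m` -/
lemma hasDeriv_rho_pow (hC : S_CURV) {α : ℝ} (h0 : 0 < α) (h1 : α < 1) {t : ℝ} (ht : 0 < t)
    (m : ℕ) : HasDerivAt (fun τ => rho α τ ^ m)
      (rho α t / lam α t ^ 3 * (2 * α * m * rho α t ^ m)) t := by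
  obtain ⟨hs, hl, hr, -, -, -, -, -, hdr, -⟩ := (hC α h0 h1).1 t ht
  have h3 := hdr.pow m
  refine h3.congr_deriv ?_
  rcases m with _ | m
  · simp
  · simp only [Nat.add_sub_cancel]
    have hl' := hl.ne'
    have hr' := hr.ne'
    field_simp
    push_cast
    ring

/-- `v/ρ^3` -/
lemma hasDeriv_div_rho (hC : S_CURV) {α : ℝ} (h0 : 0 < α) (h1 : α < 1) {t : ℝ} (ht : 0 < t)
    {f : ℝ → ℝ} {f' : ℝ} (hf : HasDerivAt f f' t) :
    HasDerivAt (fun τ => f τ / rho α τ ^ 3)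
      (f' / rho α t ^ 3 - rho α t / lam α t ^ 3 * (6 * α * (f t / rho α t ^ 3))) t := by
  obtain ⟨hs, hl, hr, -, -, -, -, -, hdr, -⟩ := (hC α h0 h1).1 t ht
  have h3 := hasDeriv_rho_pow hC h0 h1 ht 3
  have h4 := hf.div h3 (pow_ne_zero 3 hr.ne')
  refine h4.congr_deriv ?_
  have hl' := hl.ne'
  have hr' := hr.ne'
  field_simp
  push_cast
  ring

/-- time derivative of `Φ/ρ^3` -/
lemma hasDeriv_div (hC : S_CURV) (hT : S_TD) {α : ℝ} (h0 : 0 < α) (h1 : α < 1) {Φ : F3}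
    (hΦ : Φ ∈ MT 0 ∨ Φ ∈ MP 0) {t : ℝ} (ht : 0 < t) (y : ℝ) :
    HasDerivAt (fun τ => Φ (rho α τ) (Real.log (sig α τ)) y / rho α τ ^ 3)
      (rho α t / lam α t ^ 3 * ((Dop α Φ (rho α t) (Real.log (sig α t)) y
        - 6 * α * Φ (rho α t) (Real.log (sig α t)) y) / rho α t ^ 3)) t := by
  have hd := (hT α h0 h1).1 Φ hΦ t y ht
  have h4 := hasDeriv_div_rho hC h0 h1 ht hd
  refine h4.congr_deriv ?_
  ring

/-- members of `MT 0` or `MP 0` are smooth in `y` -/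
lemma smooth_y (hM : S_MCL1) {Φ : F3} (hΦ : Φ ∈ MT 0 ∨ Φ ∈ MP 0) (r l : ℝ) :
    ContDiff ℝ (⊤ : ℕ∞) (Φ r l) := by
  obtain ⟨-, -, -, -, -, -, -, -, -, -, -, -, -, -, -, -, hA, hB⟩ := hM
  have h : ContDiff ℝ (⊤ : ℕ∞) (fun p : ℝ × ℝ × ℝ => Φ p.1 p.2.1 p.2.2) := by
    rcases hΦ with h | h
    · exact hA Φ h
    · exact hB Φ h
  have h2 : ContDiff ℝ (⊤ : ℕ∞) (fun y : ℝ => ((r, l, y) : ℝ × ℝ × ℝ)) :=
    contDiff_const.prodMk (contDiff_const.prodMk contDiff_id)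
  exact h.comp h2

lemma dYk_mem (hM : S_MCL1) {m : ℕ} {Φ : F3} (hΦ : Φ ∈ MT m ∨ Φ ∈ MP m) (k : ℕ) :
    dY^[k] Φ ∈ MT m ∨ dY^[k] Φ ∈ MP m := by
  obtain ⟨-, -, -, -, -, hA, hB, -⟩ := hM
  induction k with
  | zero => exact hΦ
  | succ k ih =>
    rw [Function.iterate_succ_apply']
    rcases ih with h | h
    · exact Or.inl (hA m _ h)
    · exact Or.inr (hB m _ h)

lemma Dop_mem (hM : S_MCL1) (α : ℝ) {m : ℕ} {Φ : F3} (hΦ : Φ ∈ MT m ∨ Φ ∈ MP m) :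
    Dop α Φ ∈ MT m ∨ Dop α Φ ∈ MP m := by
  obtain ⟨-, -, -, -, -, -, -, hA, hB, -⟩ := hM
  rcases hΦ with h | h
  · exact Or.inl (hA α m _ h)
  · exact Or.inr (hB α m _ h)

lemma mem_zero (hM : S_MCL1) {m : ℕ} {Φ : F3} (hΦ : Φ ∈ MT m ∨ Φ ∈ MP m) :
    Φ ∈ MT 0 ∨ Φ ∈ MP 0 := by
  obtain ⟨hA, hB, -⟩ := hM
  rcases hΦ with h | h
  · exact Or.inl (hA 0 m (Nat.zero_le _) h)
  · exact Or.inr (hB 0 m (Nat.zero_le _) h)

/-- bound of members of order `m` along the curve by `ρ^{m-δ}(1+|y|)^n` -/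
lemma td_bound (hT : S_TD) {α : ℝ} (h0 : 0 < α) (h1 : α < 1) {m : ℕ} {Φ : F3}
    (hΦ : Φ ∈ MT m ∨ Φ ∈ MP m) {δ : ℝ} (hδ : 0 < δ) :
    ∃ (C : ℝ) (n : ℕ), 0 ≤ C ∧ ∀ t y : ℝ, 0 < t → sig α t ≤ 1 →
      |Φ (rho α t) (Real.log (sig α t)) y| ≤ C * rho α t ^ ((m : ℝ) - δ) * (1 + |y|) ^ n := by
  obtain ⟨-, -, hA, hB⟩ := hT α h0 h1
  rcases hΦ with h | h
  · obtain ⟨C, n, hC⟩ := hA m Φ δ hδ h
    refine ⟨|C|, n, abs_nonneg _, fun t y ht hs => ?_⟩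
    have hr : 0 ≤ rho α t ^ ((m : ℝ) - δ) := by
      apply Real.rpow_nonneg
      unfold rho
      apply Real.rpow_nonneg
      unfold sig
      apply Real.rpow_nonneg
      positivity
    have h1y : (1 : ℝ) ≤ 1 + |y| := by linarith [abs_nonneg y]
    rcases le_total 0 y with hy | hy
    · refine ((hC t y ht hs).1 hy).trans ?_
      have e1 : Real.exp (-(y / 2)) ≤ 1 := Real.exp_le_one_iff.mpr (by linarith)
      have e2 : (1 : ℝ) ≤ (1 + |y|) ^ n := one_le_pow₀ h1y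
      have e3 : C * rho α t ^ ((m : ℝ) - δ) ≤ |C| * rho α t ^ ((m : ℝ) - δ) :=
        mul_le_mul_of_nonneg_right (le_abs_self C) hr
      have e4 : 0 ≤ |C| * rho α t ^ ((m : ℝ) - δ) := by positivity
      calc C * rho α t ^ ((m : ℝ) - δ) * Real.exp (-(y / 2))
          ≤ |C| * rho α t ^ ((m : ℝ) - δ) * Real.exp (-(y / 2)) :=
            mul_le_mul_of_nonneg_right e3 (Real.exp_pos _).le
        _ ≤ |C| * rho α t ^ ((m : ℝ) - δ) * (1 + |y|) ^ n :=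
            mul_le_mul_of_nonneg_left (e1.trans e2) e4
    · refine ((hC t y ht hs).2 hy).trans ?_
      have e3 : C * rho α t ^ ((m : ℝ) - δ) ≤ |C| * rho α t ^ ((m : ℝ) - δ) :=
        mul_le_mul_of_nonneg_right (le_abs_self C) hr
      exact mul_le_mul_of_nonneg_right e3 (by positivity)
  · obtain ⟨C, n, hC⟩ := hB m Φ δ hδ h
    refine ⟨|C|, n, abs_nonneg _, fun t y ht hs => ?_⟩
    have hr : 0 ≤ rho α t ^ ((m : ℝ) - δ) := by
      apply Real.rpow_nonneg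
      unfold rho
      apply Real.rpow_nonneg
      unfold sig
      apply Real.rpow_nonneg
      positivity
    refine (hC t y ht hs).trans ?_
    have e3 : C * rho α t ^ ((m : ℝ) - δ) ≤ |C| * rho α t ^ ((m : ℝ) - δ) :=
      mul_le_mul_of_nonneg_right (le_abs_self C) hr
    exact mul_le_mul_of_nonneg_right e3 (by positivity)

end Pool.Agent.Helper71.KV.RB
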