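import Pool.Agent.Helper71.KV.RBB

/-!
# Project KV, packet RB: the abstract core
-/

namespace Pool.Agent.Helper71.KV.RB

open Real MeasureTheory Pool.Agent.Helper41.KV Pool.Agent.Helper33.KV
open Pool.Agent.Helper61.KV

lemma rho_pos' {α t : ℝ} (h0 : 0 < α) (ht : 0 < t) : 0 < rho α t := by
  unfold rho sig
  positivity

lemma rho_small (hC : S_CURV) {α : ℝ} (h0 : 0 < α) (h1 : α < 1) {ε : ℝ} (hε : 0 < ε) :
    ∃ T : ℝ, 0 < T ∧ ∀ t, 0 < t → t ≤ T → rho α t < ε ∧ sig α t < ε := by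
  obtain ⟨T, hT, h⟩ := (hC α h0 h1).2.2.2.2.1 ε hε
  exact ⟨T, hT, fun t ht htT => ⟨(h t ht htT).2.2, (h t ht htT).1⟩⟩

/-- `ρ^a` is small, `a > 0` -/
lemma rho_rpow_small (hC : S_CURV) {α : ℝ} (h0 : 0 < α) (h1 : α < 1) {a : ℝ} (ha : 0 < a)
    {ε : ℝ} (hε : 0 < ε) :
    ∃ T : ℝ, 0 < T ∧ ∀ t, 0 < t → t ≤ T → rho α t ^ a ≤ ε ∧ rho α t < 1 ∧ sig α t < 1 := by
  obtain ⟨T, hT, h⟩ := rho_small hC h0 h1 (ε := min 1 (ε ^ (1 / a)))
    (lt_min one_pos (Real.rpow_pos_of_pos hε _))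
  refine ⟨T, hT, fun t ht htT => ?_⟩
  obtain ⟨h2, h3⟩ := h t ht htT
  have hr := rho_pos' h0 ht
  refine ⟨?_, lt_of_lt_of_le h2 (min_le_left _ _), lt_of_lt_of_le h3 (min_le_left _ _)⟩
  have h4 : rho α t ≤ ε ^ (1 / a) := (lt_of_lt_of_le h2 (min_le_right _ _)).le
  calc rho α t ^ a ≤ (ε ^ (1 / a)) ^ a := Real.rpow_le_rpow hr.le h4 ha.le
    _ = ε := by
      rw [← Real.rpow_mul hε.le, one_div, inv_mul_cancel₀ ha.ne', Real.rpow_one]

/-- far away the exponential wins -/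
lemma small_far (hC : S_CURV) {α : ℝ} (h0 : 0 < α) (h1 : α < 1) {θ : ℝ} (hθ : 0 < θ) (C : ℝ)
    (m j : ℕ) {ε : ℝ} (hε : 0 < ε) :
    ∃ T : ℝ, 0 < T ∧ ∀ t, 0 < t → t ≤ T → ∀ y, rho α t ^ (-θ) ≤ |y| →
      C * (1 + |y|) ^ j / rho α t ^ m ≤ ε * Real.exp (|y| / 64) := by
  set N : ℕ := ⌈1 / θ⌉₊ with hN
  obtain ⟨K, hK0, hK⟩ := poly_exp (N * m + j + 1) (1 / 64) (by norm_num)
  have hden : 0 < |C| * K + 1 := by positivity
  obtain ⟨T, hT, h⟩ := rho_rpow_small hC h0 h1 hθ (ε := ε / (|C| * K + 1)) (by positivity)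
  refine ⟨T, hT, fun t ht htT y hy => ?_⟩
  obtain ⟨h2, h3, -⟩ := h t ht htT
  have hr := rho_pos' h0 ht
  have hy1 : rho α t ^ (-θ) ≤ 1 + |y| := hy.trans (by linarith)
  have hyp : (0 : ℝ) < 1 + |y| := by positivity
  have hyN : (rho α t)⁻¹ ≤ (1 + |y|) ^ N := by
    have e1 : (rho α t ^ (-θ)) ^ N ≤ (1 + |y|) ^ N :=
      pow_le_pow_left₀ (Real.rpow_nonneg hr.le _) hy1 N
    refine le_trans ?_ e1
    rw [← Real.rpow_natCast, ← Real.rpow_mul hr.le, ← Real.rpow_neg_one]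
    apply Real.rpow_le_rpow_of_exponent_ge hr h3.le
    have : 1 ≤ θ * N := by
      have := Nat.le_ceil (1 / θ)
      rw [← hN, div_le_iff₀ hθ] at this
      linarith
    linarith
  have hθ1 : 1 ≤ rho α t ^ θ * (1 + |y|) := by
    rw [Real.rpow_neg hr.le] at hy1
    have hp : 0 < rho α t ^ θ := Real.rpow_pos_of_pos hr _
    rw [inv_le_iff_one_le_mul₀ hp] at hy1
    linarith
  have hm : 1 / rho α t ^ m ≤ (1 + |y|) ^ (N * m) := by
    rw [one_div, ← inv_pow, pow_mul]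
    exact pow_le_pow_left₀ (inv_nonneg.mpr hr.le) hyN m
  have e0 : C * (1 + |y|) ^ j / rho α t ^ m ≤ |C| * (1 + |y|) ^ (N * m + j) := by
    calc C * (1 + |y|) ^ j / rho α t ^ m = C * ((1 + |y|) ^ j * (1 / rho α t ^ m)) := by ring
      _ ≤ |C| * ((1 + |y|) ^ j * (1 / rho α t ^ m)) :=
          mul_le_mul_of_nonneg_right (le_abs_self C) (by positivity)
      _ ≤ |C| * ((1 + |y|) ^ j * (1 + |y|) ^ (N * m)) := by
          gcongr
      _ = |C| * (1 + |y|) ^ (N * m + j) := by rw [pow_add]; ring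
  refine e0.trans ?_
  calc |C| * (1 + |y|) ^ (N * m + j)
      ≤ |C| * (1 + |y|) ^ (N * m + j) * (rho α t ^ θ * (1 + |y|)) :=
        le_mul_of_one_le_right (by positivity) hθ1
    _ = |C| * rho α t ^ θ * (1 + |y|) ^ (N * m + j + 1) := by ring
    _ ≤ |C| * rho α t ^ θ * (K * Real.exp (1 / 64 * |y|)) := by
        have := hK |y| (abs_nonneg y)
        have hp : 0 ≤ |C| * rho α t ^ θ := by positivity
        exact mul_le_mul_of_nonneg_left this hp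
    _ = (|C| * K * rho α t ^ θ) * Real.exp (|y| / 64) := by
        rw [show 1 / 64 * |y| = |y| / 64 by ring]; ring
    _ ≤ ε * Real.exp (|y| / 64) := by
        apply mul_le_mul_of_nonneg_right _ (Real.exp_pos _).le
        calc |C| * K * rho α t ^ θ ≤ |C| * K * (ε / (|C| * K + 1)) := by gcongr
          _ = ε * (|C| * K / (|C| * K + 1)) := by ring
          _ ≤ ε * 1 := by
              apply mul_le_mul_of_nonneg_left _ hε.le
              rw [div_le_one hden]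
              linarith
          _ = ε := mul_one ε

/-- members of order 4 divided by `ρ^3` are small -/
lemma small_near (hC : S_CURV) (hT : S_TD) {α : ℝ} (h0 : 0 < α) (h1 : α < 1) {Φ : F3}
    (hΦ : Φ ∈ MT 4 ∨ Φ ∈ MP 4) {ε : ℝ} (hε : 0 < ε) :
    ∃ T : ℝ, 0 < T ∧ ∀ t, 0 < t → t ≤ T → ∀ y,
      |Φ (rho α t) (Real.log (sig α t)) y / rho α t ^ 3| ≤ ε * Real.exp (|y| / 64) := by
  obtain ⟨C, n, hC0, hb⟩ := td_bound hT h0 h1 hΦ (δ := 1 / 2) (by norm_num)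
  obtain ⟨K, hK0, hK⟩ := poly_exp n (1 / 64) (by norm_num)
  have hden : 0 < C * K + 1 := by positivity
  obtain ⟨T, hT, h⟩ := rho_rpow_small hC h0 h1 (a := 1 / 2) (by norm_num)
    (ε := ε / (C * K + 1)) (by positivity)
  refine ⟨T, hT, fun t ht htT y => ?_⟩
  obtain ⟨h2, h3, h4⟩ := h t ht htT
  have hr := rho_pos' h0 ht
  have hb1 := hb t y ht h4.le
  have hK1 := hK |y| (abs_nonneg y)
  rw [abs_div, abs_of_pos (pow_pos hr 3), div_le_iff₀ (pow_pos hr 3)]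
  refine hb1.trans ?_
  have e1 : rho α t ^ (((4 : ℕ) : ℝ) - 1 / 2) = rho α t ^ (1 / 2 : ℝ) * rho α t ^ 3 := by
    rw [← Real.rpow_natCast (rho α t) 3, ← Real.rpow_add hr]
    norm_num
  rw [e1]
  have e2 : (C * K * rho α t ^ (1 / 2 : ℝ)) ≤ ε := by
    calc C * K * rho α t ^ (1 / 2 : ℝ) ≤ C * K * (ε / (C * K + 1)) := by gcongr
      _ = ε * (C * K / (C * K + 1)) := by ring
      _ ≤ ε * 1 := by
          apply mul_le_mul_of_nonneg_left _ hε.le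
          rw [div_le_one hden]
          linarith
      _ = ε := mul_one ε
  calc C * (rho α t ^ (1 / 2 : ℝ) * rho α t ^ 3) * (1 + |y|) ^ n
      ≤ C * (rho α t ^ (1 / 2 : ℝ) * rho α t ^ 3) * (K * Real.exp (1 / 64 * |y|)) :=
        mul_le_mul_of_nonneg_left hK1 (by positivity)
    _ = (C * K * rho α t ^ (1 / 2 : ℝ)) * (Real.exp (|y| / 64) * rho α t ^ 3) := by
        rw [show 1 / 64 * |y| = |y| / 64 by ring]; ring
    _ ≤ ε * (Real.exp (|y| / 64) * rho α t ^ 3) :=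
        mul_le_mul_of_nonneg_right e2 (by positivity)
    _ = ε * Real.exp (|y| / 64) * rho α t ^ 3 := by ring

/-- the complement of the near region -/
lemma far_of {α t θ y : ℝ} (h0 : 0 < α) (ht : 0 < t) (hθ1 : θ < 1 / 4)
    (hr4 : rho α t < 1 / 4) (h : ¬ (-1 < rho α t ^ θ * y ∧ rho α t * y < 1 / 2)) :
    rho α t ^ (-θ) ≤ |y| := by
  have hr := rho_pos' h0 ht
  have hp : 0 < rho α t ^ θ := Real.rpow_pos_of_pos hr _
  by_cases h2 : -1 < rho α t ^ θ * y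
  · have h3 : 1 / 2 ≤ rho α t * y := by
      by_contra h4
      exact h ⟨h2, not_le.mp h4⟩
    have hy : 1 / (2 * rho α t) ≤ y := by
      rw [div_le_iff₀ (by positivity)]
      linarith
    have hy0 : 0 < y := lt_of_lt_of_le (by positivity) hy
    rw [abs_of_pos hy0]
    refine le_trans ?_ hy
    have e1 : rho α t ^ (-θ) = rho α t ^ (1 - θ) / rho α t := by
      rw [Real.rpow_sub hr, Real.rpow_one, Real.rpow_neg hr.le]
      field_simp
    rw [e1, div_le_div_iff₀ hr (by positivity), one_mul]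
    have e2 : rho α t ^ (1 - θ) ≤ 1 / 2 := by
      calc rho α t ^ (1 - θ) ≤ rho α t ^ (1 / 2 : ℝ) :=
            Real.rpow_le_rpow_of_exponent_ge hr (by linarith) (by linarith)
        _ ≤ (1 / 4 : ℝ) ^ (1 / 2 : ℝ) := Real.rpow_le_rpow hr.le hr4.le (by norm_num)
        _ = 1 / 2 := by
            rw [show (1 / 4 : ℝ) = (1 / 2) ^ (2 : ℕ) by norm_num, ← Real.rpow_natCast,
              ← Real.rpow_mul (by norm_num)]
            norm_num
    nlinarith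
  · push Not at h2
    rw [Real.rpow_neg hr.le, inv_le_iff_one_le_mul₀ hp]
    have h3 : y ≤ 0 := by
      by_contra h4
      push Not at h4
      have := mul_pos hp h4
      linarith
    rw [abs_of_nonpos h3]
    linarith

section core

variable {α : ℝ} {v : ℝ → ℝ → ℝ} {T1 : ℝ}

lemma v_smooth (hv : ContDiffOn ℝ (⊤ : ℕ∞) (fun q : ℝ × ℝ => v q.1 q.2)
    (Set.Ioo 0 T1 ×ˢ Set.univ)) {t : ℝ} (ht : t ∈ Set.Ioo 0 T1) : ContDiff ℝ (⊤ : ℕ∞) (v t) := by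
  have hopen : IsOpen (Set.Ioo 0 T1 ×ˢ (Set.univ : Set ℝ)) := isOpen_Ioo.prod isOpen_univ
  rw [contDiff_iff_contDiffAt]
  intro y
  have h1 : ContDiffAt ℝ (⊤ : ℕ∞) (fun q : ℝ × ℝ => v q.1 q.2) (t, y) :=
    (hv (t, y) ⟨ht, Set.mem_univ _⟩).contDiffAt (hopen.mem_nhds ⟨ht, Set.mem_univ _⟩)
  have h2 : ContDiffAt ℝ (⊤ : ℕ∞) (fun y : ℝ => ((t, y) : ℝ × ℝ)) y :=
    contDiffAt_const.prodMk contDiffAt_id
  exact h1.comp y h2

lemma v_diff (hv : ContDiffOn ℝ (⊤ : ℕ∞) (fun q : ℝ × ℝ => v q.1 q.2)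
    (Set.Ioo 0 T1 ×ˢ Set.univ)) {t : ℝ} (ht : t ∈ Set.Ioo 0 T1) (y : ℝ) :
    DifferentiableAt ℝ (fun τ => v τ y) t := by
  have hopen : IsOpen (Set.Ioo 0 T1 ×ˢ (Set.univ : Set ℝ)) := isOpen_Ioo.prod isOpen_univ
  have h1 : ContDiffAt ℝ (⊤ : ℕ∞) (fun q : ℝ × ℝ => v q.1 q.2) (t, y) :=
    (hv (t, y) ⟨ht, Set.mem_univ _⟩).contDiffAt (hopen.mem_nhds ⟨ht, Set.mem_univ _⟩)
  have h2 : ContDiffAt ℝ (⊤ : ℕ∞) (fun τ : ℝ => ((τ, y) : ℝ × ℝ)) t :=
    contDiffAt_id.prodMk contDiffAt_const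
  have h3 : ContDiffAt ℝ (⊤ : ℕ∞) (fun τ => v τ y) t :=
    ContDiffAt.comp (g := fun q : ℝ × ℝ => v q.1 q.2) t h1 h2
  exact h3.differentiableAt (by simp)

end core

end Pool.Agent.Helper71.KV.RB
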