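import Pool.Agent.Helper71.KV.RBC

/-!
# Project KV, packet RB: the abstract core, second part
-/

namespace Pool.Agent.Helper71.KV.RB

open Real MeasureTheory Pool.Agent.Helper41.KV Pool.Agent.Helper33.KV
open Pool.Agent.Helper61.KV

/-- the remainder -/
noncomputable def rr (α : ℝ) (v : ℝ → ℝ → ℝ) (ζ V2 : ℝ → ℝ) (t y : ℝ) : ℝ :=
  (v t y - Q y - rho α t * ζ y - rho α t ^ 2 * V2 y) / rho α t ^ 3

lemma rr_smooth (hQ : S_QF) {α : ℝ} {v : ℝ → ℝ → ℝ} {ζ V2 : ℝ → ℝ} (hζ : IsP ζ) (hV : IsP V2)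
    {t : ℝ} (hv : ContDiff ℝ (⊤ : ℕ∞) (v t)) : ContDiff ℝ (⊤ : ℕ∞) (rr α v ζ V2 t) := by
  have hq := hQ.1
  have h1 := hζ.1
  have h2 := hV.1
  have : ContDiff ℝ (⊤ : ℕ∞) (fun y => (v t y - Q y - rho α t * ζ y - rho α t ^ 2 * V2 y)
      / rho α t ^ 3) :=
    (((hv.sub hq).sub (contDiff_const.mul h1)).sub (contDiff_const.mul h2)).div_const _
  exact this

lemma rr_iter (hQ : S_QF) {α : ℝ} {v : ℝ → ℝ → ℝ} {ζ V2 : ℝ → ℝ} (hζ : IsP ζ) (hV : IsP V2)
    {t : ℝ} (hv : ContDiff ℝ (⊤ : ℕ∞) (v t)) (k : ℕ) (y : ℝ) :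
    iteratedDeriv k (rr α v ζ V2 t) y = (iteratedDeriv k (v t) y - iteratedDeriv k Q y
      - rho α t * iteratedDeriv k ζ y - rho α t ^ 2 * iteratedDeriv k V2 y) / rho α t ^ 3 := by
  have hq := hQ.1
  have h1 := hζ.1
  have h2 := hV.1
  have e : rr α v ζ V2 t = fun y => (rho α t ^ 3)⁻¹ *
      (((v t y - Q y) - rho α t * ζ y) - rho α t ^ 2 * V2 y) := by
    funext y; unfold rr; rw [div_eq_inv_mul]
  rw [e, iteratedDeriv_const_mul_field]
  have a1 : ContDiff ℝ (⊤ : ℕ∞) (fun y => v t y - Q y) := hv.sub hq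
  have a2 : ContDiff ℝ (⊤ : ℕ∞) (fun y => rho α t * ζ y) := contDiff_const.mul h1
  have a3 : ContDiff ℝ (⊤ : ℕ∞) (fun y => rho α t ^ 2 * V2 y) := contDiff_const.mul h2
  have a4 : ContDiff ℝ (⊤ : ℕ∞) (fun y => (v t y - Q y) - rho α t * ζ y) := a1.sub a2
  rw [iteratedDeriv_fun_sub (cda a4 k y) (cda a3 k y),
    iteratedDeriv_fun_sub (cda a1 k y) (cda a2 k y), iteratedDeriv_fun_sub (cda hv k y) (cda hq k y),
    iteratedDeriv_const_mul_field, iteratedDeriv_const_mul_field]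
  rw [div_eq_inv_mul]

lemma rr_deriv (hC : S_CURV) {α : ℝ} (h0 : 0 < α) (h1 : α < 1) {v : ℝ → ℝ → ℝ} {ζ V2 : ℝ → ℝ}
    {t : ℝ} (ht : 0 < t) (y : ℝ) (hd : DifferentiableAt ℝ (fun τ => v τ y) t) :
    HasDerivAt (fun τ => rr α v ζ V2 τ y)
      (deriv (fun τ => v τ y) t / rho α t ^ 3
        - rho α t / lam α t ^ 3 * ((2 * α * rho α t * ζ y + 4 * α * rho α t ^ 2 * V2 y)
            / rho α t ^ 3)
        - rho α t / lam α t ^ 3 * (6 * α * rr α v ζ V2 t y)) t := by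
  have d1 := hasDeriv_rho_pow hC h0 h1 ht 1
  have d2 := hasDeriv_rho_pow hC h0 h1 ht 2
  have d3 := ((hd.hasDerivAt.sub_const (Q y)).sub (d1.mul_const (ζ y))).sub (d2.mul_const (V2 y))
  have d4 := hasDeriv_div_rho hC h0 h1 ht d3
  have e : (fun τ => rr α v ζ V2 τ y) = fun τ => (((fun τ => v τ y - Q y)
      - fun τ => rho α τ ^ 1 * ζ y) - fun τ => rho α τ ^ 2 * V2 y) τ / rho α τ ^ 3 := by
    funext τ
    simp only [Pi.sub_apply, pow_one]
    rfl
  rw [e]
  refine d4.congr_deriv ?_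
  simp only [Pi.sub_apply, pow_one]
  unfold rr
  push_cast
  ring

theorem core (hC : S_CURV) (hQ : S_QF) (hM : S_MCL1) (hT : S_TD) {α : ℝ} (h0 : 0 < α)
    (h1 : α < 1) {ζ V2 g3 : ℝ → ℝ} (hζ : IsP ζ) (hV : IsP V2) (hg : IsP g3) {C3 : ℝ}
    (hC30 : 0 ≤ C3)
    (hC3 : ∀ k ≤ 4, ∀ y, |iteratedDeriv k g3 y| ≤ C3 * Real.exp (|y| / 64))
    {A B : F3} (hA : A ∈ MT 4) (hB : B ∈ MP 4) {θ : ℝ} (hθ : 0 < θ) (hθ1 : θ < 1 / 4)
    {T1 C1 : ℝ} (hT1 : 0 < T1) (hC1 : 0 ≤ C1) {v : ℝ → ℝ → ℝ}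
    (hv : ContDiffOn ℝ (⊤ : ℕ∞) (fun q : ℝ × ℝ => v q.1 q.2) (Set.Ioo 0 T1 ×ˢ Set.univ))
    (hrep : ∀ t ∈ Set.Ioo 0 T1, ∀ y, -1 ≤ rho α t ^ θ * y → rho α t * y ≤ 1 / 2 →
      v t y = Q y + rho α t * ζ y + rho α t ^ 2 * V2 y + rho α t ^ 3 * g3 y
        + A (rho α t) (Real.log (sig α t)) y + B (rho α t) (Real.log (sig α t)) y)
    (hk : ∀ t ∈ Set.Ioo 0 T1, ∀ k ≤ 4, ∀ y,
      |iteratedDeriv k (v t) y - iteratedDeriv k Q y| ≤ C1)
    (ht : ∀ t ∈ Set.Ioo 0 T1, ∀ y, lam α t ^ 3 * |deriv (fun τ => v τ y) t| ≤ C1) :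
    ∃ T : ℝ, 0 < T ∧ T < T1 ∧ ∀ t ∈ Set.Ioc 0 T,
      ContDiff ℝ (⊤ : ℕ∞) (rr α v ζ V2 t) ∧
      (∀ k ≤ 4, ∀ y, |iteratedDeriv k (rr α v ζ V2 t) y| ≤ (C3 + 4) * Real.exp (|y| / 64)) ∧
      ∀ y, DifferentiableAt ℝ (fun τ => rr α v ζ V2 τ y) t ∧
        |deriv (fun τ => rr α v ζ V2 τ y) t|
          ≤ (C3 + 4) * (rho α t / lam α t ^ 3) * Real.exp (|y| / 64) := by
  have hA4 : A ∈ MT 4 ∨ A ∈ MP 4 := Or.inl hA
  have hB4 : B ∈ MT 4 ∨ B ∈ MP 4 := Or.inr hB
  have hA0 := mem_zero hM hA4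
  have hB0 := mem_zero hM hB4
  -- bounds of `ζ`, `V2`
  obtain ⟨nζ, Cζ, hCζ0, hCζ⟩ := unifP hζ 4
  obtain ⟨nV, CV, hCV0, hCV⟩ := unifP hV 4
  -- small times
  have nearA : ∀ k : ℕ, ∃ T : ℝ, 0 < T ∧ ∀ t, 0 < t → t ≤ T → ∀ y,
      |(dY^[k] A) (rho α t) (Real.log (sig α t)) y / rho α t ^ 3|
        ≤ 1 * Real.exp (|y| / 64) := fun k =>
    small_near hC hT h0 h1 (dYk_mem hM hA4 k) one_pos
  have nearB : ∀ k : ℕ, ∃ T : ℝ, 0 < T ∧ ∀ t, 0 < t → t ≤ T → ∀ y,
      |(dY^[k] B) (rho α t) (Real.log (sig α t)) y / rho α t ^ 3|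
        ≤ 1 * Real.exp (|y| / 64) := fun k =>
    small_near hC hT h0 h1 (dYk_mem hM hB4 k) one_pos
  choose TA hTA0 hTA using nearA
  choose TB hTB0 hTB using nearB
  obtain ⟨S1, hS10, hS1⟩ := small_near hC hT h0 h1 (Dop_mem hM α hA4) one_pos
  obtain ⟨S2, hS20, hS2⟩ := small_near hC hT h0 h1 (Dop_mem hM α hB4) one_pos
  obtain ⟨S3, hS30, hS3⟩ := small_near hC hT h0 h1 hA4 (ε := 1 / 6) (by norm_num)
  obtain ⟨S4, hS40, hS4⟩ := small_near hC hT h0 h1 hB4 (ε := 1 / 6) (by norm_num)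
  obtain ⟨F1, hF10, hF1⟩ := small_far hC h0 h1 hθ (C1 + Cζ + CV) 3 (nζ + nV) (ε := 1 / 6)
    (by norm_num)
  obtain ⟨F2, hF20, hF2⟩ := small_far hC h0 h1 hθ C1 4 0 (ε := 1) (by norm_num)
  obtain ⟨F3, hF30, hF3⟩ := small_far hC h0 h1 hθ (2 * Cζ + 4 * CV) 3 (nζ + nV) (ε := 1)
    (by norm_num)
  obtain ⟨G1, hG10, hG1⟩ := rho_small hC h0 h1 (ε := 1 / 4) (by norm_num)
  -- the final time
  have hTAm : ∃ T : ℝ, 0 < T ∧ ∀ k ≤ 4, T ≤ TA k ∧ T ≤ TB k := by
    refine ⟨(Finset.range 5).inf' (Finset.nonempty_range_iff.mpr (by norm_num))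
      (fun k => min (TA k) (TB k)), ?_, ?_⟩
    · exact (Finset.lt_inf'_iff _).mpr (fun k _ => lt_min (hTA0 k) (hTB0 k))
    · intro k hk4
      have h := Finset.inf'_le (fun k => min (TA k) (TB k))
        (show k ∈ Finset.range 5 by simp; omega)
      exact ⟨h.trans (min_le_left _ _), h.trans (min_le_right _ _)⟩
  obtain ⟨TM, hTM0, hTM⟩ := hTAm
  have hex : ∃ T : ℝ, 0 < T ∧ T < T1 ∧ T ≤ TM ∧ T ≤ S1 ∧ T ≤ S2 ∧ T ≤ S3 ∧ T ≤ S4 ∧
      T ≤ F1 ∧ T ≤ F2 ∧ T ≤ F3 ∧ T ≤ G1 := by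
    refine ⟨min (T1 / 2) (min TM (min S1 (min S2 (min S3 (min S4 (min F1 (min F2
      (min F3 G1)))))))), ?_, ?_, ?_⟩
    · have : 0 < T1 / 2 := by positivity
      simp only [lt_min_iff]
      exact ⟨this, hTM0, hS10, hS20, hS30, hS40, hF10, hF20, hF30, hG10⟩
    · exact lt_of_le_of_lt (min_le_left _ _) (by linarith)
    · simp only [min_le_iff, le_refl, true_or, or_true, and_self]
  obtain ⟨T, hT0, hTT1, hTTM, hTS1, hTS2, hTS3, hTS4, hTF1, hTF2, hTF3, hTG1⟩ := hex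
  refine ⟨T, hT0, hTT1, ?_⟩
  rintro t ⟨ht0, htT⟩
  have htI : t ∈ Set.Ioo 0 T1 := ⟨ht0, lt_of_le_of_lt htT hTT1⟩
  have hvs := v_smooth hv htI
  have hr := rho_pos' (t := t) h0 ht0
  have hr1 : rho α t < 1 / 4 := (hG1 t ht0 (htT.trans hTG1)).1
  obtain ⟨hs, hl, -⟩ := (hC α h0 h1).1 t ht0
  have hl3 : 0 < rho α t / lam α t ^ 3 := by positivity
  -- the far bound of derivatives, all `k ≤ 4`
  have hfar : ∀ k ≤ 4, ∀ y, rho α t ^ (-θ) ≤ |y| →
      |iteratedDeriv k (rr α v ζ V2 t) y| ≤ 1 / 6 * Real.exp (|y| / 64) := by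
    intro k hk4 y hy
    rw [rr_iter hQ hζ hV hvs k y, abs_div, abs_of_pos (pow_pos hr 3)]
    refine le_trans ?_ (hF1 t ht0 (htT.trans hTF1) y hy)
    apply div_le_div_of_nonneg_right _ (pow_pos hr 3).le
    have b1 := hk t htI k hk4 y
    have b2 := hCζ k hk4 y
    have b3 := hCV k hk4 y
    have hy1 : (1 : ℝ) ≤ 1 + |y| := by linarith [abs_nonneg y]
    have p1 : (1 + |y|) ^ nζ ≤ (1 + |y|) ^ (nζ + nV) := pow_le_pow_right₀ hy1 (by omega)
    have p2 : (1 + |y|) ^ nV ≤ (1 + |y|) ^ (nζ + nV) := pow_le_pow_right₀ hy1 (by omega)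
    have p3 : 1 ≤ (1 + |y|) ^ (nζ + nV) := one_le_pow₀ hy1
    have q2 : |rho α t * iteratedDeriv k ζ y| ≤ Cζ * (1 + |y|) ^ (nζ + nV) := by
      rw [abs_mul, abs_of_pos hr]
      calc rho α t * |iteratedDeriv k ζ y| ≤ 1 * |iteratedDeriv k ζ y| :=
            mul_le_mul_of_nonneg_right (by linarith) (abs_nonneg _)
        _ ≤ Cζ * (1 + |y|) ^ nζ := by rw [one_mul]; exact b2
        _ ≤ Cζ * (1 + |y|) ^ (nζ + nV) := mul_le_mul_of_nonneg_left p1 hCζ0
    have q3 : |rho α t ^ 2 * iteratedDeriv k V2 y| ≤ CV * (1 + |y|) ^ (nζ + nV) := by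
      rw [abs_mul, abs_of_pos (pow_pos hr 2)]
      calc rho α t ^ 2 * |iteratedDeriv k V2 y| ≤ 1 * |iteratedDeriv k V2 y| := by
            apply mul_le_mul_of_nonneg_right _ (abs_nonneg _)
            exact pow_le_one₀ hr.le (by linarith)
        _ ≤ CV * (1 + |y|) ^ nV := by rw [one_mul]; exact b3
        _ ≤ CV * (1 + |y|) ^ (nζ + nV) := mul_le_mul_of_nonneg_left p2 hCV0
    have q1 : |iteratedDeriv k (v t) y - iteratedDeriv k Q y|
        ≤ C1 * (1 + |y|) ^ (nζ + nV) := b1.trans (le_mul_of_one_le_right hC1 p3)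
    calc |iteratedDeriv k (v t) y - iteratedDeriv k Q y - rho α t * iteratedDeriv k ζ y
          - rho α t ^ 2 * iteratedDeriv k V2 y|
        ≤ |iteratedDeriv k (v t) y - iteratedDeriv k Q y| + |rho α t * iteratedDeriv k ζ y|
          + |rho α t ^ 2 * iteratedDeriv k V2 y| := by
          refine (abs_sub _ _).trans ?_
          gcongr
          exact abs_sub _ _
      _ ≤ (C1 + Cζ + CV) * (1 + |y|) ^ (nζ + nV) := by linarith
  -- the near formula
  have hnear : ∀ s ∈ Set.Ioo 0 T1, ∀ y, -1 ≤ rho α s ^ θ * y → rho α s * y ≤ 1 / 2 →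
      rr α v ζ V2 s y = g3 y + A (rho α s) (Real.log (sig α s)) y / rho α s ^ 3
        + B (rho α s) (Real.log (sig α s)) y / rho α s ^ 3 := by
    intro s hs y hy1 hy2
    have hrs := rho_pos' (t := s) h0 hs.1
    unfold rr
    rw [hrep s hs y hy1 hy2]
    have := hrs.ne'
    field_simp
    ring
  have hexp : ∀ y : ℝ, 0 < Real.exp (|y| / 64) := fun y => Real.exp_pos _
  refine ⟨rr_smooth hQ hζ hV hvs, ?_, ?_⟩
  · intro k hk4 y
    by_cases hy : -1 < rho α t ^ θ * y ∧ rho α t * y < 1 / 2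
    · -- near
      have hev : rr α v ζ V2 t =ᶠ[nhds y] fun y =>
          g3 y + (rho α t ^ 3)⁻¹ * A (rho α t) (Real.log (sig α t)) y
            + (rho α t ^ 3)⁻¹ * B (rho α t) (Real.log (sig α t)) y := by
        have o1 : ∀ᶠ y' in nhds y, -1 < rho α t ^ θ * y' :=
          (continuous_const.mul continuous_id).continuousAt.eventually (lt_mem_nhds hy.1)
        have o2 : ∀ᶠ y' in nhds y, rho α t * y' < 1 / 2 :=
          (continuous_const.mul continuous_id).continuousAt.eventually (gt_mem_nhds hy.2)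
        filter_upwards [o1, o2] with y' h3 h4
        rw [hnear t htI y' h3.le h4.le]
        rw [div_eq_inv_mul, div_eq_inv_mul]
      rw [hev.iteratedDeriv_eq k]
      have sA := smooth_y hM hA0 (rho α t) (Real.log (sig α t))
      have sB := smooth_y hM hB0 (rho α t) (Real.log (sig α t))
      have sA' : ContDiff ℝ (⊤ : ℕ∞) (fun y =>
          (rho α t ^ 3)⁻¹ * A (rho α t) (Real.log (sig α t)) y) := contDiff_const.mul sA
      have sB' : ContDiff ℝ (⊤ : ℕ∞) (fun y =>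
          (rho α t ^ 3)⁻¹ * B (rho α t) (Real.log (sig α t)) y) := contDiff_const.mul sB
      have sgA : ContDiff ℝ (⊤ : ℕ∞) (fun y =>
          g3 y + (rho α t ^ 3)⁻¹ * A (rho α t) (Real.log (sig α t)) y) := hg.1.add sA'
      rw [iteratedDeriv_fun_add (cda sgA k y) (cda sB' k y),
        iteratedDeriv_fun_add (cda hg.1 k y) (cda sA' k y), iteratedDeriv_const_mul_field,
        iteratedDeriv_const_mul_field]
      have eA := (hT α h0 h1).2.1 A hA0 k (rho α t) (Real.log (sig α t)) y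
      have eB := (hT α h0 h1).2.1 B hB0 k (rho α t) (Real.log (sig α t)) y
      have eA' : iteratedDeriv k (fun y => A (rho α t) (Real.log (sig α t)) y) y
          = (dY^[k] A) (rho α t) (Real.log (sig α t)) y := eA
      have eB' : iteratedDeriv k (fun y => B (rho α t) (Real.log (sig α t)) y) y
          = (dY^[k] B) (rho α t) (Real.log (sig α t)) y := eB
      rw [eA', eB', ← div_eq_inv_mul, ← div_eq_inv_mul]
      have bA := hTA k t ht0 (htT.trans (hTTM.trans (hTM k hk4).1)) y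
      have bB := hTB k t ht0 (htT.trans (hTTM.trans (hTM k hk4).2)) y
      have bg := hC3 k hk4 y
      have := hexp y
      refine (abs_add_three _ _ _).trans ?_
      linarith
    · have := hfar k hk4 y (far_of h0 ht0 hθ1 hr1 hy)
      refine this.trans ?_
      apply mul_le_mul_of_nonneg_right _ (hexp y).le
      linarith
  · intro y
    have hvd := v_diff hv htI y
    have hder := rr_deriv hC h0 h1 (ζ := ζ) (V2 := V2) ht0 y hvd
    refine ⟨hder.differentiableAt, ?_⟩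
    by_cases hy : -1 < rho α t ^ θ * y ∧ rho α t * y < 1 / 2
    · -- near
      have hcr : ContinuousAt (rho α) t := ((hC α h0 h1).1 t ht0).2.2.2.2.2.2.2.2.1.continuousAt
      have hev : (fun τ => rr α v ζ V2 τ y) =ᶠ[nhds t] fun τ =>
          g3 y + A (rho α τ) (Real.log (sig α τ)) y / rho α τ ^ 3
            + B (rho α τ) (Real.log (sig α τ)) y / rho α τ ^ 3 := by
        have c1 : ContinuousAt (fun τ => rho α τ ^ θ * y) t :=
          (hcr.rpow_const (Or.inl hr.ne')).mul continuousAt_const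
        have c2 : ContinuousAt (fun τ => rho α τ * y) t := hcr.mul continuousAt_const
        have o1 : ∀ᶠ τ in nhds t, -1 < rho α τ ^ θ * y := c1.eventually (lt_mem_nhds hy.1)
        have o2 : ∀ᶠ τ in nhds t, rho α τ * y < 1 / 2 := c2.eventually (gt_mem_nhds hy.2)
        have o3 : ∀ᶠ τ in nhds t, τ ∈ Set.Ioo 0 T1 := isOpen_Ioo.mem_nhds htI
        filter_upwards [o1, o2, o3] with τ h3 h4 h5
        exact hnear τ h5 y h3.le h4.le
      have dA := hasDeriv_div hC hT h0 h1 hA0 ht0 y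
      have dB := hasDeriv_div hC hT h0 h1 hB0 ht0 y
      have dtot := ((hasDerivAt_const t (g3 y)).add dA).add dB
      have hd2 : HasDerivAt (fun τ => rr α v ζ V2 τ y) _ t := dtot.congr_of_eventuallyEq hev
      rw [hd2.deriv]
      have b1 := hS1 t ht0 (htT.trans hTS1) y
      have b2 := hS2 t ht0 (htT.trans hTS2) y
      have b3 := hS3 t ht0 (htT.trans hTS3) y
      have b4 := hS4 t ht0 (htT.trans hTS4) y
      set a1 := Dop α A (rho α t) (Real.log (sig α t)) y / rho α t ^ 3 with ha1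
      set a2 := Dop α B (rho α t) (Real.log (sig α t)) y / rho α t ^ 3 with ha2
      set a3 := A (rho α t) (Real.log (sig α t)) y / rho α t ^ 3 with ha3
      set a4 := B (rho α t) (Real.log (sig α t)) y / rho α t ^ 3 with ha4
      set E := Real.exp (|y| / 64) with hE
      have hE0 : 0 < E := hexp y
      set L := rho α t / lam α t ^ 3 with hL
      have e1 : 0 + L * ((Dop α A (rho α t) (Real.log (sig α t)) y
          - 6 * α * A (rho α t) (Real.log (sig α t)) y) / rho α t ^ 3)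
          + L * ((Dop α B (rho α t) (Real.log (sig α t)) y
          - 6 * α * B (rho α t) (Real.log (sig α t)) y) / rho α t ^ 3)
          = L * ((a1 - 6 * α * a3) + (a2 - 6 * α * a4)) := by
        rw [ha1, ha2, ha3, ha4]; ring
      rw [e1, abs_mul, abs_of_pos hl3]
      have k3 : |6 * α * a3| ≤ E := by
        rw [abs_mul, abs_of_pos (by positivity : 0 < 6 * α)]
        calc 6 * α * |a3| ≤ 6 * 1 * (1 / 6 * E) := by gcongr
          _ = E := by ring
      have k4 : |6 * α * a4| ≤ E := by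
        rw [abs_mul, abs_of_pos (by positivity : 0 < 6 * α)]
        calc 6 * α * |a4| ≤ 6 * 1 * (1 / 6 * E) := by gcongr
          _ = E := by ring
      have k5 : |(a1 - 6 * α * a3) + (a2 - 6 * α * a4)| ≤ 4 * E := by
        have t1 := abs_add_le (a1 - 6 * α * a3) (a2 - 6 * α * a4)
        have t2 := abs_sub a1 (6 * α * a3)
        have t3 := abs_sub a2 (6 * α * a4)
        linarith
      calc L * |(a1 - 6 * α * a3) + (a2 - 6 * α * a4)| ≤ L * (4 * E) :=
            mul_le_mul_of_nonneg_left k5 hl3.le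
        _ ≤ (C3 + 4) * L * E := by
            have : 0 ≤ C3 * L * E := by positivity
            linarith
    · -- far
      have hfy := far_of h0 ht0 hθ1 hr1 hy
      rw [hder.deriv]
      have b0 := hfar 0 (by norm_num) y hfy
      rw [iteratedDeriv_zero] at b0
      have b1 := hF2 t ht0 (htT.trans hTF2) y hfy
      have b2 := hF3 t ht0 (htT.trans hTF3) y hfy
      have b3 := ht t htI y
      set E := Real.exp (|y| / 64) with hE
      have hE0 : 0 < E := hexp y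
      set L := rho α t / lam α t ^ 3 with hL
      have c1 : |deriv (fun τ => v τ y) t / rho α t ^ 3| ≤ L * E := by
        have h3 : |deriv (fun τ => v τ y) t| ≤ C1 / lam α t ^ 3 := by
          rw [le_div_iff₀ (by positivity)]
          linarith
        rw [abs_div, abs_of_pos (pow_pos hr 3)]
        calc |deriv (fun τ => v τ y) t| / rho α t ^ 3 ≤ C1 / lam α t ^ 3 / rho α t ^ 3 := by
              gcongr
          _ = L * (C1 * (1 + |y|) ^ 0 / rho α t ^ 4) := by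
              rw [hL, pow_zero, mul_one]
              field_simp
          _ ≤ L * (1 * E) := mul_le_mul_of_nonneg_left b1 hl3.le
          _ = L * E := by rw [one_mul]
      have hy1 : (1 : ℝ) ≤ 1 + |y| := by linarith [abs_nonneg y]
      have p1 : (1 + |y|) ^ nζ ≤ (1 + |y|) ^ (nζ + nV) := pow_le_pow_right₀ hy1 (by omega)
      have p2 : (1 + |y|) ^ nV ≤ (1 + |y|) ^ (nζ + nV) := pow_le_pow_right₀ hy1 (by omega)
      have z1 := hCζ 0 (by norm_num) y
      have z2 := hCV 0 (by norm_num) y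
      rw [iteratedDeriv_zero] at z1 z2
      have c2 : |(2 * α * rho α t * ζ y + 4 * α * rho α t ^ 2 * V2 y) / rho α t ^ 3| ≤ E := by
        rw [abs_div, abs_of_pos (pow_pos hr 3)]
        have hle : |2 * α * rho α t * ζ y + 4 * α * rho α t ^ 2 * V2 y|
            ≤ (2 * Cζ + 4 * CV) * (1 + |y|) ^ (nζ + nV) := by
          have u1 : |2 * α * rho α t * ζ y| ≤ 2 * (Cζ * (1 + |y|) ^ (nζ + nV)) := by
            rw [abs_mul, abs_of_pos (by positivity : 0 < 2 * α * rho α t)]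
            have : 2 * α * rho α t ≤ 2 := by nlinarith
            calc 2 * α * rho α t * |ζ y| ≤ 2 * |ζ y| :=
                  mul_le_mul_of_nonneg_right this (abs_nonneg _)
              _ ≤ 2 * (Cζ * (1 + |y|) ^ (nζ + nV)) := by
                  have := z1.trans (mul_le_mul_of_nonneg_left p1 hCζ0)
                  linarith
          have u2 : |4 * α * rho α t ^ 2 * V2 y| ≤ 4 * (CV * (1 + |y|) ^ (nζ + nV)) := by
            rw [abs_mul, abs_of_pos (by positivity : 0 < 4 * α * rho α t ^ 2)]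
            have h5 : rho α t ^ 2 ≤ 1 := pow_le_one₀ hr.le (by linarith)
            have : 4 * α * rho α t ^ 2 ≤ 4 := by nlinarith [pow_pos hr 2]
            calc 4 * α * rho α t ^ 2 * |V2 y| ≤ 4 * |V2 y| :=
                  mul_le_mul_of_nonneg_right this (abs_nonneg _)
              _ ≤ 4 * (CV * (1 + |y|) ^ (nζ + nV)) := by
                  have := z2.trans (mul_le_mul_of_nonneg_left p2 hCV0)
                  linarith
          have := abs_add_le (2 * α * rho α t * ζ y) (4 * α * rho α t ^ 2 * V2 y)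
          linarith
        refine (div_le_div_of_nonneg_right hle (pow_pos hr 3).le).trans ?_
        rw [one_mul] at b2
        exact b2
      have c3 : |6 * α * rr α v ζ V2 t y| ≤ E := by
        rw [abs_mul, abs_of_pos (by positivity : 0 < 6 * α)]
        calc 6 * α * |rr α v ζ V2 t y| ≤ 6 * 1 * (1 / 6 * E) := by gcongr
          _ = E := by ring
      have c4 : |L * ((2 * α * rho α t * ζ y + 4 * α * rho α t ^ 2 * V2 y) / rho α t ^ 3)|
          ≤ L * E := by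
        rw [abs_mul, abs_of_pos hl3]
        exact mul_le_mul_of_nonneg_left c2 hl3.le
      have c5 : |L * (6 * α * rr α v ζ V2 t y)| ≤ L * E := by
        rw [abs_mul, abs_of_pos hl3]
        exact mul_le_mul_of_nonneg_left c3 hl3.le
      have t1 := abs_sub (deriv (fun τ => v τ y) t / rho α t ^ 3
        - L * ((2 * α * rho α t * ζ y + 4 * α * rho α t ^ 2 * V2 y) / rho α t ^ 3))
        (L * (6 * α * rr α v ζ V2 t y))
      have t2 := abs_sub (deriv (fun τ => v τ y) t / rho α t ^ 3)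
        (L * ((2 * α * rho α t * ζ y + 4 * α * rho α t ^ 2 * V2 y) / rho α t ^ 3))
      have hLE : 0 < L * E := by positivity
      have : 0 ≤ C3 * L * E := by positivity
      linarith

end Pool.Agent.Helper71.KV.RB
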